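import Pool.Agent.Lib.MP_688fd0_co.SQ5.N.Iface
import Pool.Agent.Lib.MP_688fd0_co.SQ4.H58.Tree

/-!
Type C2, NEAR-3, row TREEN (helper68): the tree of the lines.

The lines are the cosets `x ⟨w⟩` in `Q₊`; `u ∈ ⟨w⟩`, so every line contains an element of `D` and the lines are the
cosets `D / ⟨wD⟩`. The rungs at a strand `(c, d)` lead to the lines of `d wD ^ m pD⁻¹` and of `d wD ^ m pD`, all `m`.
-/

set_option autoImplicit false

namespace Pool.Agent.Lib.MP_688fd0_co.SQ5.N.H68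

open Pool.Agent.Lib.MP_688fd0_co.OSF Pool.Agent.Lib.MP_688fd0_co.SQ2 Pool.Agent.Lib.MP_688fd0_co.SQ3
open Pool.Agent.Lib.MP_688fd0_co.SQ4

/-! ### The sum over the lines -/

theorem sum_ne {D Λ : Type} [Fintype D] [Finite Λ] (f : D → Λ) (r : ℕ) (hr : 0 < r)
    (hf : ∀ L, Nat.card {δ // f δ = L} = r) (cl d : Λ → Bool)
    (hone : ∀ y y', cl y = true → cl y' = true → y = y') (hodd : Odd (Nat.card {y // cl y = false})) (γ : Bool)
    (hγ : ∃ y, cl y = γ) (p : ℕ) (hp : p.Prime) (hD : Fintype.card D < p) :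
    (∑ δ : D, (if cl (f δ) = γ then (if d (f δ) then 1 else -1) else 0 : ZMod p)) ≠ 0 := by
  classical
  cases nonempty_fintype Λ
  have : Fact p.Prime := ⟨hp⟩
  have hr' : ∀ L, (Finset.univ.filter fun δ => f δ = L).card = r := by
    intro L
    rw [← hf L, Nat.card_eq_fintype_card, Fintype.card_subtype]
  have hcard : Fintype.card D = r * Fintype.card Λ := by
    have h1 := Finset.card_eq_sum_card_fiberwise (s := (Finset.univ : Finset D)) (t := (Finset.univ : Finset Λ))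
      (f := f) (fun x _ => Finset.mem_coe.2 (Finset.mem_univ _))
    rw [Finset.card_univ] at h1
    rw [h1, Finset.sum_congr rfl fun L _ => hr' L, Finset.sum_const, Finset.card_univ, smul_eq_mul, mul_comm]
  let S : ℤ := ∑ L : Λ, (if cl L = γ then (if d L then 1 else -1) else 0 : ℤ)
  have hS : (∑ δ : D, (if cl (f δ) = γ then (if d (f δ) then 1 else -1) else 0 : ZMod p)) =
      (r : ZMod p) * (S : ZMod p) := by
    have h1 : (S : ZMod p) = ∑ L : Λ, (if cl L = γ then (if d L then 1 else -1) else 0 : ZMod p) := by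
      show ((∑ L : Λ, (if cl L = γ then (if d L then 1 else -1) else 0 : ℤ) : ℤ) : ZMod p) = _
      rw [Int.cast_sum]
      refine Finset.sum_congr rfl fun L _ => ?_
      split_ifs <;> simp
    rw [h1, Finset.mul_sum, ← Finset.sum_fiberwise (s := (Finset.univ : Finset D)) (g := f)]
    refine Finset.sum_congr rfl fun L _ => ?_
    rw [Finset.sum_congr rfl (g := fun _ => (if cl L = γ then (if d L then 1 else -1) else 0 : ZMod p))
      (fun δ hδ => by rw [(Finset.mem_filter.1 hδ).2]), Finset.sum_const, hr', nsmul_eq_mul]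
  have hΛ : 0 < Fintype.card Λ := by
    obtain ⟨y, -⟩ := hγ
    exact Fintype.card_pos_iff.2 ⟨y⟩
  have hrp : r < p := by
    refine lt_of_le_of_lt ?_ hD
    rw [hcard]
    exact Nat.le_mul_of_pos_right _ hΛ
  have hΛp : Fintype.card Λ < p := by
    refine lt_of_le_of_lt ?_ hD
    rw [hcard]
    exact Nat.le_mul_of_pos_left _ hr
  have hSabs : |S| ≤ Fintype.card Λ := by
    refine (Finset.abs_sum_le_sum_abs _ _).trans ?_
    refine (Finset.sum_le_card_nsmul _ _ 1 fun L _ => ?_).trans ?_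
    · split_ifs <;> simp
    · rw [Finset.card_univ, nsmul_eq_mul, mul_one]
  have hγodd : Odd (Fintype.card {y // cl y = γ}) := by
    cases γ with
    | false => rwa [← Nat.card_eq_fintype_card]
    | true =>
      have h1 : Fintype.card {y // cl y = true} = 1 := by
        obtain ⟨y, hy⟩ := hγ
        rw [Fintype.card_eq_one_iff]
        exact ⟨⟨y, hy⟩, fun z => Subtype.ext (hone _ _ z.2 hy)⟩
      rw [h1]
      exact odd_one
  have hSodd : Odd S := by
    have h1 : (2 : ℤ) ∣ S - (Fintype.card {y // cl y = γ} : ℤ) := by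
      have h2 : (Fintype.card {y // cl y = γ} : ℤ) = ∑ L : Λ, (if cl L = γ then 1 else 0 : ℤ) := by
        rw [Fintype.card_subtype, Finset.sum_boole]
      rw [h2]
      show (2 : ℤ) ∣ (∑ L : Λ, (if cl L = γ then (if d L then 1 else -1) else 0 : ℤ)) - _
      rw [← Finset.sum_sub_distrib]
      refine Finset.dvd_sum fun L _ => ?_
      split_ifs <;> decide
    obtain ⟨q, hq⟩ := h1
    have h3 : Odd ((Fintype.card {y // cl y = γ} : ℕ) : ℤ) := by exact_mod_cast hγodd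
    obtain ⟨q', hq'⟩ := h3
    exact ⟨q + q', by omega⟩
  rw [hS]
  refine mul_ne_zero ?_ ?_
  · rw [Ne, ZMod.natCast_eq_zero_iff]
    intro h
    exact absurd (Nat.le_of_dvd hr h) (by omega)
  · rw [Ne, ZMod.intCast_zmod_eq_zero_iff_dvd]
    intro h
    have h1 : S = 0 := Int.eq_zero_of_abs_lt_dvd h (by omega)
    rw [h1] at hSodd
    exact absurd hSodd (by decide)

section

variable {Q : Type} [Group Q] {B : Lb.{0, 0} Q} {a t b : B.L} {eps : Q →* ℤˣ} {D : Subgroup Q} {u : Q} {i j k : ℕ}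
  (H : HypN B a t b eps D u i j k)

include H

theorem eps_w : eps (B.q a * (B.q b)⁻¹) = 1 := by rw [map_mul, map_inv, H.ea, H.eb]; decide

theorem U_one {x : Q} (h : eps x = 1) : H.up.U x = x * B.q a := if_pos h

theorem U_neg {x : Q} (h : eps x ≠ 1) : H.up.U x = x * (B.q b)⁻¹ := if_neg h

theorem U_two {x : Q} (h : eps x = 1) : H.up.U (H.up.U x) = x * (B.q a * (B.q b)⁻¹) := by
  have h1 : eps (x * B.q a) ≠ 1 := by rw [map_mul, h, H.ea]; decide
  rw [U_one H h, U_neg H h1, mul_assoc]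

theorem U_pow {x : Q} (h : eps x = 1) (n : ℕ) : (H.up.U ^ (2 * n)) x = x * (B.q a * (B.q b)⁻¹) ^ n := by
  induction n with
  | zero => rw [mul_zero, pow_zero, pow_zero, mul_one]; rfl
  | succ n ih =>
    have h1 : eps (x * (B.q a * (B.q b)⁻¹) ^ n) = 1 := by rw [map_mul, map_pow, eps_w H, h, one_pow, one_mul]
    rw [show 2 * (n + 1) = 2 * n + 1 + 1 by ring, H.up.U_pow_succ', H.up.U_pow_succ', ih, U_two H h1, pow_succ,
      mul_assoc]

theorem U_even {y : Q} (hy : eps y = 1) (m : ℤ) : (H.up.U ^ (2 * m)) y = y * (B.q a * (B.q b)⁻¹) ^ m := by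
  rcases Int.eq_nat_or_neg m with ⟨n, rfl | rfl⟩
  · have h := U_pow H hy n
    have e : ((2 * (n : ℤ)) : ℤ) = ((2 * n : ℕ) : ℤ) := by push_cast; ring
    rw [e, zpow_natCast, zpow_natCast]
    exact h
  · have e : (2 * (-(n : ℤ)) : ℤ) = -((2 * n : ℕ) : ℤ) := by push_cast; ring
    rw [e, zpow_neg, zpow_natCast]
    apply (H.up.U ^ (2 * n)).injective
    have h1 : eps (y * (B.q a * (B.q b)⁻¹) ^ (-(n : ℤ))) = 1 := by
      rw [map_mul, map_zpow, eps_w H, one_zpow, hy, one_mul]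
    rw [U_pow H h1]
    have h2 : (H.up.U ^ (2 * n)) (((H.up.U ^ (2 * n))⁻¹) y) = y := (H.up.U ^ (2 * n)).apply_symm_apply y
    rw [h2, zpow_neg, zpow_natCast, inv_mul_cancel_right]

omit H in
theorem lnU_z (U : Up B) (x : Q) (o : ℤ) : lnU U ((U.U ^ o) x) = lnU U x :=
  Quotient.sound (show Equiv.Perm.SameCycle U.U ((U.U ^ o) x) x from ⟨-o, by
    rw [zpow_neg]; exact (U.U ^ o).symm_apply_apply x⟩)

omit H in
theorem lnU_U (U : Up B) (x : Q) : lnU U (U.U x) = lnU U x := by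
  have h := lnU_z U x 1
  rwa [zpow_one] at h

theorem lnU_iff {x y : Q} (hx : eps x = 1) (hy : eps y = 1) :
    lnU H.up x = lnU H.up y ↔ ∃ m : ℤ, y = x * (B.q a * (B.q b)⁻¹) ^ m := by
  constructor
  · intro h
    obtain ⟨o, ho⟩ : Equiv.Perm.SameCycle H.up.U x y := Quotient.exact h
    rcases Int.even_or_odd' o with ⟨m, rfl | rfl⟩
    · exact ⟨m, by rw [← ho, U_even H hx]⟩
    · exfalso
      have h1 : eps (x * (B.q a * (B.q b)⁻¹) ^ m) = 1 := by rw [map_mul, map_zpow, eps_w H, one_zpow, hx, one_mul]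
      have h2 : (H.up.U ^ (2 * m + 1)) x = x * (B.q a * (B.q b)⁻¹) ^ m * B.q a := by
        rw [add_comm, zpow_add, Equiv.Perm.mul_apply, U_even H hx, zpow_one, U_one H h1]
      rw [h2] at ho
      rw [← ho, map_mul, h1, H.ea] at hy
      exact absurd hy (by decide)
  · rintro ⟨m, rfl⟩
    rw [← U_even H hx, lnU_z]

theorem lnU_ker (L : Quotient (Equiv.Perm.SameCycle.setoid H.up.U)) : ∃ y, eps y = 1 ∧ lnU H.up y = L := by
  obtain ⟨x, rfl⟩ := Quotient.exists_rep L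
  rcases Int.units_eq_one_or (eps x) with h | h
  · exact ⟨x, h, rfl⟩
  · have h0 : eps x ≠ 1 := by rw [h]; decide
    refine ⟨H.up.U x, ?_, lnU_U _ _⟩
    rw [U_neg H h0, map_mul, map_inv, h, H.eb]
    decide

/-- `u` is a power of `w`. -/
theorem u_mem : u ∈ Subgroup.zpowers (B.q a * (B.q b)⁻¹) := by
  have h1 : (B.q a * (B.q b)⁻¹) ^ k = (u ^ (i + j)) ^ k := by
    have h2 := H.per.per 1
    rw [U_pow H (map_one _), one_mul, mul_one] at h2
    exact h2
  obtain ⟨m, hm⟩ := exists_pow_eq_self_of_coprime (x := u) (n := (i + j) * k) (by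
    rw [mul_comm]; exact H.copk.symm)
  rw [pow_mul, ← h1] at hm
  rw [← hm, ← pow_mul]
  exact Subgroup.npow_mem_zpowers _ _

theorem ln_u {x : Q} (hx : eps x = 1) (n : ℤ) : lnU H.up (u ^ n * x) = lnU H.up x := by
  obtain ⟨m, hm⟩ := u_mem H
  have hm' : (B.q a * (B.q b)⁻¹) ^ m = u := hm
  have h1 : u ^ n * x = x * u ^ n := ((show Commute x u from H.cen x hx).zpow_right n).eq.symm
  symm
  rw [lnU_iff H hx (by rw [map_mul, map_zpow, H.eu, one_zpow, hx, one_mul]), h1]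
  exact ⟨m * n, by rw [zpow_mul, hm']⟩

theorem eps_D (d : D) : eps (d : Q) = 1 := H.leD d.2

/-- `w = u ^ (i + j) wD`. -/
theorem w_zpow (m : ℤ) : (B.q a * (B.q b)⁻¹) ^ m = u ^ ((i + j : ℕ) * m : ℤ) * ((H.wD ^ m : D) : Q) := by
  have h1 : B.q a * (B.q b)⁻¹ = u ^ (i + j) * (H.wD : Q) := by
    show _ = u ^ (i + j) * ((u ^ (i + j))⁻¹ * (B.q a * (B.q b)⁻¹))
    rw [mul_inv_cancel_left]
  have h2 : Commute (u ^ (i + j)) (H.wD : Q) :=
    ((show Commute (H.wD : Q) u from H.cen _ (eps_D H _)).pow_right _).symm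
  rw [h1, h2.mul_zpow, Subgroup.coe_zpow, zpow_mul, zpow_natCast]

theorem lnD_w (d : D) (m : ℤ) : lnU H.up ((d * H.wD ^ m : D) : Q) = lnU H.up (d : Q) := by
  have h1 : lnU H.up ((d : Q) * (B.q a * (B.q b)⁻¹) ^ m) = lnU H.up (d : Q) := by
    symm
    rw [lnU_iff H (eps_D H d) (by rw [map_mul, map_zpow, eps_w H, one_zpow, eps_D H, one_mul])]
    exact ⟨m, rfl⟩
  rw [← h1, w_zpow H]
  have h2 : (d : Q) * (u ^ ((i + j : ℕ) * m : ℤ) * ((H.wD ^ m : D) : Q)) =
      u ^ ((i + j : ℕ) * m : ℤ) * ((d * H.wD ^ m : D) : Q) := by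
    have h3 : (d : Q) * u ^ ((i + j : ℕ) * m : ℤ) = u ^ ((i + j : ℕ) * m : ℤ) * (d : Q) :=
      ((show Commute (d : Q) u from H.cen _ (eps_D H d)).zpow_right _).eq
    rw [← mul_assoc, h3, mul_assoc]
    rfl
  rw [h2, ln_u H (eps_D H _)]

theorem lnD_iff {d d' : D} : lnU H.up (d : Q) = lnU H.up (d' : Q) ↔ ∃ m : ℤ, d' = d * H.wD ^ m := by
  constructor
  · intro h
    obtain ⟨m, hm⟩ := (lnU_iff H (eps_D H d) (eps_D H d')).1 h
    refine ⟨m, ?_⟩
    rw [w_zpow H] at hm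
    have h3 : (d : Q) * u ^ ((i + j : ℕ) * m : ℤ) = u ^ ((i + j : ℕ) * m : ℤ) * (d : Q) :=
      ((show Commute (d : Q) u from H.cen _ (eps_D H d)).zpow_right _).eq
    have h4 : u ^ ((i + j : ℕ) * m : ℤ) = ((d' * (d * H.wD ^ m)⁻¹ : D) : Q) := by
      rw [← mul_assoc, h3, mul_assoc] at hm
      rw [Subgroup.coe_mul, Subgroup.coe_inv, eq_mul_inv_iff_mul_eq, hm]
      rfl
    have h5 : u ^ ((i + j : ℕ) * m : ℤ) = 1 := H.dis (by rw [h4]; exact Subtype.property _)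
    rw [h5] at h4
    have h6 : (d' * (d * H.wD ^ m)⁻¹ : D) = 1 := Subtype.ext h4.symm
    exact (mul_inv_eq_one.1 h6)
  · rintro ⟨m, rfl⟩
    exact (lnD_w H d m).symm

theorem ln_g (s : Fin (i + j) × D) : lnU H.up (gN D u (i + j) s) = lnU H.up (s.2 : Q) := by
  show lnU H.up (u ^ (s.1 : ℕ) * (s.2 : Q)) = _
  rw [← zpow_natCast, ln_u H (eps_D H _)]

theorem lnD_ex (L : Quotient (Equiv.Perm.SameCycle.setoid H.up.U)) : ∃ d : D, lnU H.up (d : Q) = L := by
  obtain ⟨y, hy, rfl⟩ := lnU_ker H L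
  obtain ⟨n, d, hd, rfl⟩ := H.ker y hy
  exact ⟨⟨d, hd⟩, (ln_u H (H.leD hd) n).symm⟩

/-- The graph of the lines. -/
def Eg (H : HypN B a t b eps D u i j k) (L L' : Quotient (Equiv.Perm.SameCycle.setoid H.up.U)) : Prop :=
  ∃ d : D, ∃ m : ℤ, lnU H.up (d : Q) = L ∧
    (lnU H.up ((d * H.wD ^ m * H.pD⁻¹ : D) : Q) = L' ∨ lnU H.up ((d * H.wD ^ m * H.pD : D) : Q) = L')

theorem Eg_symm {L L' : Quotient (Equiv.Perm.SameCycle.setoid H.up.U)} (h : Eg H L L') : Eg H L' L := by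
  obtain ⟨d, m, rfl, h | h⟩ := h
  · exact ⟨_, 0, h, Or.inr (by rw [zpow_zero, mul_one, inv_mul_cancel_right, lnD_w])⟩
  · exact ⟨_, 0, h, Or.inl (by rw [zpow_zero, mul_one, mul_inv_cancel_right, lnD_w])⟩

theorem Eg_at {L L' : Quotient (Equiv.Perm.SameCycle.setoid H.up.U)} (h : Eg H L L') {d : D}
    (hL : lnU H.up (d : Q) = L) : ∃ m : ℤ,
      (lnU H.up ((d * H.wD ^ m * H.pD⁻¹ : D) : Q) = L' ∨ lnU H.up ((d * H.wD ^ m * H.pD : D) : Q) = L') := by
  obtain ⟨d', m, h1, h2⟩ := h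
  obtain ⟨s, rfl⟩ := (lnD_iff H).1 (hL.trans h1.symm)
  refine ⟨s + m, ?_⟩
  rwa [mul_assoc d, ← zpow_add] at h2

/-- The graph of the lines is connected. -/
theorem Eg_conn (ρ : Quotient (Equiv.Perm.SameCycle.setoid H.up.U) → Quotient (Equiv.Perm.SameCycle.setoid H.up.U) → Prop)
    (hρ : Equivalence ρ) (hE : ∀ L L', Eg H L L' → ρ L L') : ∀ L L', ρ L L' := by
  have := H.fin
  let K : Subgroup Q :=
    { carrier := {g | eps g = 1 ∧ ∀ y, eps y = 1 → ρ (lnU H.up y) (lnU H.up (y * g))}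
      one_mem' := ⟨map_one _, fun y _ => by rw [mul_one]; exact hρ.refl _⟩
      mul_mem' := by
        rintro g g' ⟨h1, h2⟩ ⟨h3, h4⟩
        refine ⟨by rw [map_mul, h1, h3, one_mul], fun y hy => ?_⟩
        have h5 := h4 (y * g) (by rw [map_mul, hy, h1, one_mul])
        rw [mul_assoc] at h5
        exact hρ.trans (h2 y hy) h5
      inv_mem' := by
        rintro g ⟨h1, h2⟩
        refine ⟨by rw [map_inv, h1, inv_one], fun y hy => ?_⟩
        have h5 := h2 (y * g⁻¹) (by rw [map_mul, map_inv, hy, h1, inv_one, one_mul])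
        rw [inv_mul_cancel_right] at h5
        exact hρ.symm h5 }
  have hw : B.q a * (B.q b)⁻¹ ∈ K := by
    refine ⟨eps_w H, fun y hy => ?_⟩
    have h1 : lnU H.up y = lnU H.up (y * (B.q a * (B.q b)⁻¹)) := by
      rw [lnU_iff H hy (by rw [map_mul, hy, eps_w H, one_mul])]
      exact ⟨1, by rw [zpow_one]⟩
    rw [h1]
    exact hρ.refl _
  have heP : eps (B.q a * (B.q t)⁻¹) = 1 := by rw [map_mul, map_inv, H.ea, H.et]; decide
  have hP : B.q a * (B.q t)⁻¹ ∈ K := by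
    refine ⟨heP, fun y hy => ?_⟩
    obtain ⟨n, d, hd, rfl⟩ := H.ker y hy
    have e : u ^ n * d * (B.q a * (B.q t)⁻¹) = u ^ (n + i) * ((⟨d, hd⟩ * H.wD ^ (0 : ℤ) * H.pD : D) : Q) := by
      rw [zpow_zero, mul_one, zpow_add, zpow_natCast]
      show _ = u ^ n * u ^ i * (d * ((u ^ i)⁻¹ * (B.q a * (B.q t)⁻¹)))
      have h3 : d * (u ^ i)⁻¹ = (u ^ i)⁻¹ * d :=
        (((show Commute d u from H.cen _ (H.leD hd)).pow_right _).inv_right).eq
      rw [← mul_assoc d, h3]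
      group
    rw [e, ln_u H (H.leD hd), ln_u H (eps_D H _)]
    exact hE _ _ ⟨⟨d, hd⟩, 0, rfl, Or.inr rfl⟩
  have hq : ∀ s : B.L, eps (B.q s) = -1 ∧ B.q s * B.q s = 1 ∧ B.q s * (B.q a)⁻¹ ∈ K := by
    intro s
    rcases H.all s with rfl | rfl | rfl
    · exact ⟨H.ea, H.ia, by rw [mul_inv_cancel]; exact K.one_mem⟩
    · refine ⟨H.et, H.it, ?_⟩
      have h1 := K.inv_mem hP
      rwa [mul_inv_rev, inv_inv] at h1
    · refine ⟨H.eb, H.ib, ?_⟩
      have h1 := K.inv_mem hw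
      rwa [mul_inv_rev, inv_inv] at h1
  have key : ∀ g : Q, (eps g = 1 ∧ g ∈ K) ∨ (eps g = -1 ∧ g * (B.q a)⁻¹ ∈ K) := by
    intro g
    have hg : g ∈ Subgroup.closure (Set.range B.q) := by rw [H.gen]; exact Subgroup.mem_top _
    have h1 : g ∈ Submonoid.closure (Set.range B.q) := by
      rw [← Subgroup.closure_toSubmonoid_of_finite]
      exact hg
    clear hg
    induction h1 using Submonoid.closure_induction_right with
    | one => exact Or.inl ⟨map_one _, K.one_mem⟩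
    | mul_right g _ y hy ih =>
      obtain ⟨s, rfl⟩ := hy
      obtain ⟨h1, h2, h3⟩ := hq s
      rcases ih with ⟨h4, h5⟩ | ⟨h4, h5⟩
      · refine Or.inr ⟨by rw [map_mul, h4, h1, one_mul], ?_⟩
        rw [mul_assoc]
        exact K.mul_mem h5 h3
      · refine Or.inl ⟨by rw [map_mul, h4, h1]; decide, ?_⟩
        have h6 := K.mul_mem h5 (K.inv_mem h3)
        have h7 : g * (B.q a)⁻¹ * (B.q s * (B.q a)⁻¹)⁻¹ = g * B.q s := by
          rw [mul_inv_rev, inv_inv, mul_assoc, inv_mul_cancel_left, inv_eq_of_mul_eq_one_right h2]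
        rwa [h7] at h6
  intro L L'
  obtain ⟨y, hy, rfl⟩ := lnU_ker H L
  obtain ⟨y', hy', rfl⟩ := lnU_ker H L'
  rcases key (y⁻¹ * y') with h | h
  · have h1 := h.2.2 y hy
    rwa [mul_inv_cancel_left] at h1
  · exfalso
    have h1 := h.1
    rw [map_mul, map_inv, hy, hy'] at h1
    exact absurd h1 (by decide)

theorem card_lines (h3 : 3 ≤ (Subgroup.zpowers (B.q a * (B.q b)⁻¹)).relIndex eps.ker) :
    3 ≤ Nat.card (Quotient (Equiv.Perm.SameCycle.setoid H.up.U)) := by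
  have := H.fin
  refine h3.trans ?_
  show ((Subgroup.zpowers (B.q a * (B.q b)⁻¹)).subgroupOf eps.ker).index ≤ _
  rw [Subgroup.index_eq_card]
  refine Nat.card_le_card_of_injective
    (fun q : eps.ker ⧸ (Subgroup.zpowers (B.q a * (B.q b)⁻¹)).subgroupOf eps.ker => lnU H.up (q.out : Q)) ?_
  intro q q' hq
  obtain ⟨m, hm⟩ := (lnU_iff H (q.out).2 (q'.out).2).1 hq
  have h2 : ((q.out)⁻¹ * q'.out : eps.ker) ∈ (Subgroup.zpowers (B.q a * (B.q b)⁻¹)).subgroupOf eps.ker := by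
    rw [Subgroup.mem_subgroupOf]
    refine ⟨m, ?_⟩
    show (B.q a * (B.q b)⁻¹) ^ m = (q.out : Q)⁻¹ * (q'.out : Q)
    rw [hm, inv_mul_cancel_left]
  rw [← QuotientGroup.eq] at h2
  have e1 : ((q.out : eps.ker) : eps.ker ⧸ (Subgroup.zpowers (B.q a * (B.q b)⁻¹)).subgroupOf eps.ker) = q :=
    Quotient.out_eq' q
  have e2 : ((q'.out : eps.ker) : eps.ker ⧸ (Subgroup.zpowers (B.q a * (B.q b)⁻¹)).subgroupOf eps.ker) = q' :=
    Quotient.out_eq' q'
  rw [e1, e2] at h2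
  exact h2

/-- The fibres of `D → lines`. -/
theorem card_fib (L : Quotient (Equiv.Perm.SameCycle.setoid H.up.U)) :
    Nat.card {δ : D // lnU H.up (δ : Q) = L} = Nat.card (Subgroup.zpowers H.wD) := by
  obtain ⟨d, rfl⟩ := lnD_ex H L
  refine Nat.card_congr
    { toFun := fun δ => ⟨d⁻¹ * δ.1, by
        obtain ⟨m, hm⟩ := (lnD_iff H).1 δ.2.symm
        exact ⟨m, by rw [hm]; exact (inv_mul_cancel_left _ _).symm⟩⟩
      invFun := fun x => ⟨d * x.1, by
        obtain ⟨m, hm⟩ := x.2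
        have hm' : H.wD ^ m = x.1 := hm
        rw [← hm']
        exact lnD_w H d m⟩
      left_inv := fun δ => Subtype.ext (mul_inv_cancel_left _ _)
      right_inv := fun x => Subtype.ext (inv_mul_cancel_left _ _) }

theorem wD_k : H.wD ^ k = 1 := by
  have := H.fin
  exact orderOf_dvd_iff_pow_eq_one.1 ((orderOf_dvd_natCard H.wD).trans H.card)

/-- `wD ^ l` depends on `l mod k` only. -/
theorem wD_mod (m s : ℤ) : H.wD ^ (((m - s) % (k : ℤ)) + s) = H.wD ^ m := by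
  have h1 : (m - s) % (k : ℤ) + s = m + k * (-((m - s) / (k : ℤ))) := by
    have := Int.emod_add_mul_ediv (m - s) k
    linarith
  rw [h1, zpow_add, zpow_mul, zpow_natCast, wD_k H, one_zpow, mul_one]

/-- The rungs at a strand. -/
theorem leaf [NeZero (i + j)] (c : Fin (i + j)) (d : D) (m : ℤ)
    (L' : Quotient (Equiv.Perm.SameCycle.setoid H.up.U))
    (h : lnU H.up ((d * H.wD ^ m * H.pD⁻¹ : D) : Q) = L' ∨ lnU H.up ((d * H.wD ^ m * H.pD : D) : Q) = L') :
    ∃ s : Fin (i + j) × D, JnN (i + j) H.wD H.pD i k (c, d) s ∧ lnU H.up (gN D u (i + j) s) = L' := by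
  have hk := H.kpos
  have hk' : (k : ℤ) ≠ 0 := by omega
  rcases h with h | h
  · obtain ⟨l, hl⟩ : ∃ l : ℕ, (l : ℤ) = m % (k : ℤ) := ⟨(m % (k : ℤ)).toNat, Int.toNat_of_nonneg (Int.emod_nonneg _ hk')⟩
    have hlk : l < k := by
      have := Int.emod_lt_of_pos m (show (0 : ℤ) < k by omega)
      omega
    have hwl : H.wD ^ l = H.wD ^ m := by
      have h1 := wD_mod H m 0
      rw [sub_zero, add_zero, ← hl, zpow_natCast] at h1
      exact h1
    refine ⟨yN (i + j) H.wD H.pD i k ((c, d), ⟨l, hlk⟩), ⟨((c, d), ⟨l, hlk⟩), Or.inl ⟨rfl, rfl⟩⟩, ?_⟩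
    rw [ln_g H]
    show lnU H.up ((d * H.wD ^ l * H.pD⁻¹ * H.wD ^ (-_ : ℤ) : D) : Q) = L'
    rw [lnD_w H, hwl, h]
  · have he : ((i + j : ℕ) : ℤ) ≠ 0 := by have := H.ipos; omega
    have hc := c.2
    let c' : ℕ := (c + i) % (i + j)
    have hc' : c' < i + j := Nat.mod_lt _ (by have := H.ipos; omega)
    let s : ℤ := ((c' : ℤ) - i) / ((i + j : ℕ) : ℤ)
    obtain ⟨l, hl⟩ : ∃ l : ℕ, (l : ℤ) = (m - s) % (k : ℤ) :=
      ⟨((m - s) % (k : ℤ)).toNat, Int.toNat_of_nonneg (Int.emod_nonneg _ hk')⟩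
    have hlk : l < k := by
      have := Int.emod_lt_of_pos (m - s) (show (0 : ℤ) < k by omega)
      omega
    have hwl : H.wD ^ ((l : ℤ) + s) = H.wD ^ m := by
      rw [hl]
      exact wD_mod H m s
    have hcm : ((c' : ℤ) - i) % ((i + j : ℕ) : ℤ) = c := by
      have h1 : (c' : ℤ) = ((c : ℕ) + i : ℤ) % ((i + j : ℕ) : ℤ) := by
        show (((c + i) % (i + j) : ℕ) : ℤ) = _
        push_cast
        rfl
      rw [h1, Int.emod_sub_emod]
      rw [add_sub_cancel_right]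
      exact Int.emod_eq_of_lt (by omega) (by omega)
    have hn1 : ((c' : ℤ) + ((i + j : ℕ) : ℤ) * (l : ℤ) - i) % ((i + j : ℕ) : ℤ) = c := by
      rw [show (c' : ℤ) + ((i + j : ℕ) : ℤ) * (l : ℤ) - i = (c' : ℤ) - i + ((i + j : ℕ) : ℤ) * (l : ℤ) by ring,
        Int.add_mul_emod_self_left, hcm]
    have hn2 : ((c' : ℤ) + ((i + j : ℕ) : ℤ) * (l : ℤ) - i) / ((i + j : ℕ) : ℤ) = l + s := by
      rw [show (c' : ℤ) + ((i + j : ℕ) : ℤ) * (l : ℤ) - i = (c' : ℤ) - i + ((i + j : ℕ) : ℤ) * (l : ℤ) by ring,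
        Int.add_mul_ediv_left _ _ he, add_comm]
    let d' : D := d * H.wD ^ m * H.pD * H.wD ^ (-(l : ℤ))
    refine ⟨(⟨c', hc'⟩, d'), ⟨((⟨c', hc'⟩, d'), ⟨l, hlk⟩), Or.inr ⟨rfl, ?_⟩⟩, ?_⟩
    · show stN (i + j) H.wD ((c' : ℤ) + ((i + j : ℕ) : ℤ) * ((l : ℕ) : ℤ) - i) (d' * H.wD ^ l * H.pD⁻¹) = (c, d)
      unfold stN
      refine Prod.ext (Fin.ext ?_) ?_
      · show (((c' : ℤ) + ((i + j : ℕ) : ℤ) * ((l : ℕ) : ℤ) - i) % ((i + j : ℕ) : ℤ)).toNat = (c : ℕ)
        rw [hn1]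
        exact Int.toNat_natCast _
      · show d' * H.wD ^ l * H.pD⁻¹ * H.wD ^ (-(((c' : ℤ) + ((i + j : ℕ) : ℤ) * ((l : ℕ) : ℤ) - i) /
          ((i + j : ℕ) : ℤ))) = d
        rw [hn2, zpow_neg, hwl]
        show d * H.wD ^ m * H.pD * H.wD ^ (-(l : ℤ)) * H.wD ^ l * H.pD⁻¹ * (H.wD ^ m)⁻¹ = d
        rw [zpow_neg, zpow_natCast, inv_mul_cancel_right, mul_inv_cancel_right, mul_inv_cancel_right]
    · rw [ln_g H]
      show lnU H.up ((d * H.wD ^ m * H.pD * H.wD ^ (-(l : ℤ)) : D) : Q) = L'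
      rw [lnD_w H, h]

end

/-- TREEN. -/
theorem treeN : TreeNS := by
  intro Q _ B a t b eps D u i j k H _ _ h3
  have := H.fin
  obtain ⟨d, cl, N, cc, ll, mm, rk, hN, hEl, hEm, hd₁, hd₂, hcl, hone, hodd, hT, -⟩ :=
    H58.treeAbs (Quotient (Equiv.Perm.SameCycle.setoid H.up.U)) (Eg H) (fun _ _ h => Eg_symm H h) (Eg_conn H)
      (card_lines H h3)
  have hsur : Function.Surjective fun δ : D => lnU H.up (δ : Q) := fun L => lnD_ex H L
  have hΛk : Nat.card (Quotient (Equiv.Perm.SameCycle.setoid H.up.U)) ≤ k :=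
    (Nat.card_le_card_of_surjective _ hsur).trans (Nat.le_of_dvd H.kpos H.card)
  choose x hxL using fun n => lnD_ex H (cc n)
  have h₁ : ∀ n, ∃ s : Fin (i + j) × D, JnN (i + j) H.wD H.pD i k (0, x n) s ∧
      lnU H.up (gN D u (i + j) s) = ll n := by
    intro n
    obtain ⟨m, hm⟩ := Eg_at H (hEl n) (hxL n)
    exact leaf H 0 (x n) m _ hm
  have h₂ : ∀ n, ∃ s : Fin (i + j) × D, JnN (i + j) H.wD H.pD i k (0, x n) s ∧
      lnU H.up (gN D u (i + j) s) = mm n := by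
    intro n
    obtain ⟨m, hm⟩ := Eg_at H (hEm n) (hxL n)
    exact leaf H 0 (x n) m _ hm
  choose s₁ hs₁J hs₁L using h₁
  choose s₂ hs₂J hs₂L using h₂
  have hxL' : ∀ n, lnU H.up (gN D u (i + j) (0, x n)) = cc n := fun n => by rw [ln_g H]; exact hxL n
  -- the number of windows
  have hNk : N ≤ k := by
    refine le_trans ?_ hΛk
    choose p hp1 hp2 using hT.two
    have h1 : ∀ n, ∃ y, p n y ∧ (y = cc n ∨ y = ll n ∨ y = mm n) := by
      intro n
      rcases hp1 n with h | h | h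
      · exact ⟨_, h.1, Or.inl rfl⟩
      · exact ⟨_, h.1, Or.inl rfl⟩
      · exact ⟨_, h.1, Or.inr (Or.inl rfl)⟩
    choose y hy1 hy2 using h1
    have h2 : Function.Injective y := by
      intro n n' hnn
      by_contra hne
      have h3 := hp2 n (y n) (hy1 n) n' (fun h => hne h.symm) (by
        rw [hnn]
        exact hy2 n')
      have h4 := hp2 n' (y n') (hy1 n') n hne (by
        rw [← hnn]
        exact hy2 n)
      omega
    have h3 := Nat.card_le_card_of_injective _ h2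
    rwa [Nat.card_fin] at h3
  refine ⟨fun y => d (lnU H.up y), fun y => cl (lnU H.up y), N, fun n => (0, x n), s₁, s₂, rk, hN, hNk,
    fun y => congrArg d (lnU_U H.up y), fun y => congrArg cl (lnU_U H.up y), fun n => ?_, fun n => ?_, fun n => ?_, ?_, hs₁J, hs₂J, ?_⟩
  · show d _ = !d _
    rw [hxL', hs₁L]; exact hd₁ n
  · show d _ = !d _
    rw [hxL', hs₂L]; exact hd₂ n
  · show cl _ = false
    rw [hxL']; exact (hcl n).1
  · exact
      { cl := fun i => by rw [hxL', hs₁L]; exact hT.cl i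
        cm := fun i => by rw [hxL', hs₂L]; exact hT.cm i
        lm := fun i => by rw [hs₁L, hs₂L]; exact hT.lm i
        kl := fun i => by rw [hxL', hs₁L]; exact hT.kl i
        km := fun i => by rw [hxL', hs₂L]; exact hT.km i
        two := fun i => by
          obtain ⟨p, h1, h2⟩ := hT.two i
          refine ⟨fun y => p (lnU H.up y), ?_, ?_⟩
          · beta_reduce
            rw [hxL', hs₁L, hs₂L]; exact h1
          · intro y hy j hj h
            rw [hxL', hs₁L, hs₂L] at h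
            exact h2 _ hy j hj h
        cov := fun ρ hρ h y y' hy => by
          refine hT.cov ρ hρ (fun i => ?_) (lnU H.up y) (lnU H.up y') hy
          have := h i
          rwa [hxL', hs₁L, hs₂L] at this }
  · intro γ hγ p hp hbig
    have hDk : Fintype.card D ≤ k := by
      rw [← Nat.card_eq_fintype_card]
      exact Nat.le_of_dvd H.kpos H.card
    have hkp : k ≤ 4 * (i + j) * k := Nat.le_mul_of_pos_left _ (by have := H.ipos; omega)
    obtain ⟨y, hy⟩ := hγ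
    have h := sum_ne (fun δ : D => lnU H.up (δ : Q)) (Nat.card (Subgroup.zpowers H.wD)) Nat.card_pos (card_fib H)
      cl d hone hodd γ ⟨_, hy⟩ p hp.out (by omega)
    exact h

end Pool.Agent.Lib.MP_688fd0_co.SQ5.N.H68
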