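import Pool.Agent.Lib.MP_688fd0_co.SQ4.H58.Tree

/-!
NEAR-ALL, the tree with letters (helper68, paper of helper98, message 49319).

`f : D → Λ` is the map from `D` to the cosets of `⟨w⟩`; the letters `s` join the lines of `δ` and `δ p_s`. The lines are
cut into paths of length two; every path has its letters `t i`, `t' i`. For every class `γ` there are a path `i` and at
most five letters more than those of `σ₀` such that the number of lines of class `γ` in the coset `c_i ⟨w, p_s⟩` is odd.
-/

set_option autoImplicit false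

namespace Pool.Agent.Lib.MP_688fd0_co.SQ5.H68L

open Pool.Agent.Lib.MP_688fd0_co.SQ3 Pool.Agent.Lib.MP_688fd0_co.SQ4

/-- A bigger subgroup with even index over `W`. -/
theorem exists_even {D : Type} [Group D] [Finite D] (W : Subgroup D) (h : Even W.index) :
    ∃ g : D, Even (W.relIndex (W ⊔ Subgroup.zpowers g)) := by
  classical
  have : Fact (Nat.Prime 2) := ⟨Nat.prime_two⟩
  obtain ⟨P⟩ : Nonempty (Sylow 2 W) := inferInstance
  obtain ⟨n, hn⟩ : ∃ n, n = (Nat.card W).factorization 2 := ⟨_, rfl⟩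
  have hP : Nat.card P = 2 ^ n := by rw [hn]; exact P.card_eq_multiplicity
  obtain ⟨P', hP'⟩ : ∃ P' : Subgroup D, P' = (P : Subgroup W).map W.subtype := ⟨_, rfl⟩
  have hc : Nat.card P' = 2 ^ n := by
    rw [← hP, hP']
    exact Subgroup.card_map_of_injective W.subtype_injective
  have hPW : P' ≤ W := by
    rw [hP']
    rintro _ ⟨x, -, rfl⟩
    exact x.2
  have h1 : 2 ^ (n + 1) ∣ Nat.card D := by
    rw [← W.card_mul_index, pow_succ, hn]
    exact Nat.mul_dvd_mul (Nat.ordProj_dvd _ _) h.two_dvd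
  obtain ⟨K, hK, hPK⟩ := Sylow.exists_subgroup_card_pow_succ (G := D) (p := 2) h1 hc
  obtain ⟨g, hgK, hgP⟩ : ∃ g ∈ K, g ∉ P' := by
    by_contra hcon
    push Not at hcon
    have h2 : Nat.card K ≤ Nat.card P' := Nat.le_of_dvd Nat.card_pos (Subgroup.card_dvd_of_le hcon)
    rw [hK, hc, pow_succ] at h2
    have : 0 < 2 ^ n := Nat.pow_pos (by norm_num)
    omega
  refine ⟨g, ?_⟩
  have hM : P' ⊔ Subgroup.zpowers g ≤ K := by
    rw [sup_le_iff, Subgroup.zpowers_le]
    exact ⟨hPK, hgK⟩
  have hcM : Nat.card (P' ⊔ Subgroup.zpowers g : Subgroup D) = 2 ^ (n + 1) := by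
    have h2 := Subgroup.card_dvd_of_le hM
    rw [hK] at h2
    obtain ⟨m, hm, hm'⟩ := (Nat.dvd_prime_pow Nat.prime_two).1 h2
    have h3 := Subgroup.card_dvd_of_le (show P' ≤ P' ⊔ Subgroup.zpowers g from le_sup_left)
    rw [hc, hm', Nat.pow_dvd_pow_iff_le_right (by norm_num)] at h3
    rcases Nat.lt_or_ge m (n + 1) with h4 | h4
    · exfalso
      have h5 : m = n := by omega
      rw [h5, ← hc] at hm'
      have h6 : P' = P' ⊔ Subgroup.zpowers g := Subgroup.eq_of_le_of_card_ge le_sup_left hm'.le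
      apply hgP
      rw [h6]
      exact (le_sup_right : Subgroup.zpowers g ≤ _) (Subgroup.mem_zpowers g)
    · rw [hm', show m = n + 1 by omega]
  have h2 : 2 ^ (n + 1) ∣ Nat.card (W ⊔ Subgroup.zpowers g : Subgroup D) := by
    rw [← hcM]
    exact Subgroup.card_dvd_of_le (sup_le_sup_right hPW _)
  have h3 : Nat.card W * W.relIndex (W ⊔ Subgroup.zpowers g) = Nat.card (W ⊔ Subgroup.zpowers g : Subgroup D) := by
    have := Subgroup.relIndex_mul_relIndex ⊥ W (W ⊔ Subgroup.zpowers g) bot_le le_sup_left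
    rwa [Subgroup.relIndex_bot_left, Subgroup.relIndex_bot_left] at this
  have h4 : Nat.card W = 2 ^ n * ordCompl[2] (Nat.card W) := by
    rw [hn]
    exact (Nat.ordProj_mul_ordCompl_eq_self _ _).symm
  rw [← h3, h4, pow_succ, mul_assoc] at h2
  have h5 := Nat.dvd_of_mul_dvd_mul_left (Nat.pow_pos (by norm_num)) h2
  rcases (Nat.Prime.dvd_mul Nat.prime_two).1 h5 with h6 | h6
  · exact absurd h6 (Nat.not_dvd_ordCompl Nat.prime_two Nat.card_pos.ne')
  · exact even_iff_two_dvd.2 h6

/-- The sum of `± 1` over the elements of `D` whose line satisfies `P` and has class `γ`, if the number of these lines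
is odd. -/
theorem sum_ne {D Λ : Type} [Fintype D] [Finite Λ] (f : D → Λ) (r : ℕ) (hr : 0 < r)
    (hf : ∀ L, Nat.card {δ // f δ = L} = r) (cl d : Λ → Bool) (γ : Bool) (P : Λ → Prop) [DecidablePred P]
    (hodd : Odd (Nat.card {y // P y ∧ cl y = γ})) (p : ℕ) (hp : p.Prime) (hD : Fintype.card D < p) :
    (∑ δ : D, (if P (f δ) then (if cl (f δ) = γ then (if d (f δ) then 1 else -1) else 0) else 0 : ZMod p)) ≠ 0 := by
  classical
  cases nonempty_fintype Λ
  have : Fact p.Prime := ⟨hp⟩
  have hr' : ∀ L, (Finset.univ.filter fun δ => f δ = L).card = r := by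
    intro L
    rw [← hf L, Nat.card_eq_fintype_card, Fintype.card_subtype]
  have hcard : Fintype.card D = r * Fintype.card Λ := by
    have h1 := Finset.card_eq_sum_card_fiberwise (s := (Finset.univ : Finset D)) (t := (Finset.univ : Finset Λ))
      (f := f) (fun x _ => Finset.mem_coe.2 (Finset.mem_univ _))
    rw [Finset.card_univ] at h1
    rw [h1, Finset.sum_congr rfl fun L _ => hr' L, Finset.sum_const, Finset.card_univ, smul_eq_mul, mul_comm]
  let S : ℤ := ∑ L : Λ, (if P L then (if cl L = γ then (if d L then 1 else -1) else 0) else 0 : ℤ)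
  have hS : (∑ δ : D, (if P (f δ) then (if cl (f δ) = γ then (if d (f δ) then 1 else -1) else 0) else 0 : ZMod p)) =
      (r : ZMod p) * (S : ZMod p) := by
    have h1 : (S : ZMod p) =
        ∑ L : Λ, (if P L then (if cl L = γ then (if d L then 1 else -1) else 0) else 0 : ZMod p) := by
      show ((∑ L : Λ, (if P L then (if cl L = γ then (if d L then 1 else -1) else 0) else 0 : ℤ) : ℤ) : ZMod p) = _
      rw [Int.cast_sum]
      refine Finset.sum_congr rfl fun L _ => ?_
      split_ifs <;> simp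
    rw [h1, Finset.mul_sum, ← Finset.sum_fiberwise (s := (Finset.univ : Finset D)) (g := f)]
    refine Finset.sum_congr rfl fun L _ => ?_
    rw [Finset.sum_congr rfl
      (g := fun _ => (if P L then (if cl L = γ then (if d L then 1 else -1) else 0) else 0 : ZMod p))
      (fun δ hδ => by rw [(Finset.mem_filter.1 hδ).2]), Finset.sum_const, hr', nsmul_eq_mul]
  have hΛ : 0 < Fintype.card Λ := by
    obtain ⟨y⟩ : Nonempty {y // P y ∧ cl y = γ} := by
      by_contra h
      rw [not_nonempty_iff] at h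
      rw [Nat.card_of_isEmpty] at hodd
      exact absurd hodd (by decide)
    exact Fintype.card_pos_iff.2 ⟨y.1⟩
  have hrp : r < p := by
    refine lt_of_le_of_lt ?_ hD
    rw [hcard]
    exact Nat.le_mul_of_pos_right _ hΛ
  have hΛp : Fintype.card Λ < p := by
    refine lt_of_le_of_lt ?_ hD
    rw [hcard]
    exact Nat.le_mul_of_pos_left _ hr
  have hSabs : |S| ≤ Fintype.card Λ := by
    refine (Finset.abs_sum_le_sum_abs _ _).trans ?_
    refine (Finset.sum_le_card_nsmul _ _ 1 fun L _ => ?_).trans ?_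
    · split_ifs <;> simp
    · rw [Finset.card_univ, nsmul_eq_mul, mul_one]
  have hSodd : Odd S := by
    have h1 : (2 : ℤ) ∣ S - (Fintype.card {y // P y ∧ cl y = γ} : ℤ) := by
      have h2 : (Fintype.card {y // P y ∧ cl y = γ} : ℤ) = ∑ L : Λ, (if P L ∧ cl L = γ then 1 else 0 : ℤ) := by
        rw [Fintype.card_subtype, Finset.sum_boole]
      rw [h2]
      show (2 : ℤ) ∣ (∑ L : Λ, (if P L then (if cl L = γ then (if d L then 1 else -1) else 0) else 0 : ℤ)) - _
      rw [← Finset.sum_sub_distrib]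
      refine Finset.dvd_sum fun L _ => ?_
      by_cases h3 : P L <;> by_cases h4 : cl L = γ <;> by_cases h5 : d L = true <;> simp [h3, h4, h5]
    obtain ⟨q, hq⟩ := h1
    have h3 : Odd ((Fintype.card {y // P y ∧ cl y = γ} : ℕ) : ℤ) := by
      rw [← Nat.card_eq_fintype_card]
      exact_mod_cast hodd
    obtain ⟨q', hq'⟩ := h3
    exact ⟨q + q', by omega⟩
  rw [hS]
  refine mul_ne_zero ?_ ?_
  · rw [Ne, ZMod.natCast_eq_zero_iff]
    intro h
    exact absurd (Nat.le_of_dvd hr h) (by omega)
  · rw [Ne, ZMod.intCast_zmod_eq_zero_iff_dvd]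
    intro h
    have h1 : S = 0 := Int.eq_zero_of_abs_lt_dvd h (by omega)
    rw [h1] at hSodd
    exact absurd hSodd (by decide)

section

variable {D : Type} [Group D] {Λ σ : Type} (f : D → Λ) (w : D) (p : σ → D)

/-- The subgroup of a set of letters. -/
def Hs (X : Set σ) : Subgroup D := Subgroup.closure ({w} ∪ p '' X)

/-- Two lines in the same coset. -/
def Rl (X : Set σ) (L L' : Λ) : Prop := ∃ δ δ' : D, f δ = L ∧ f δ' = L' ∧ δ⁻¹ * δ' ∈ Hs w p X

/-- Joined by the letter `s`. -/
def El (s : σ) (L L' : Λ) : Prop := ∃ δ : D, f δ = L ∧ (f (δ * p s) = L' ∨ f (δ * (p s)⁻¹) = L')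

variable {f w p}

theorem w_mem (X : Set σ) (m : ℤ) : w ^ m ∈ Hs w p X :=
  Subgroup.zpow_mem _ (Subgroup.subset_closure (Or.inl rfl) : w ∈ Subgroup.closure ({w} ∪ p '' X)) m

theorem W_le (X : Set σ) : Subgroup.zpowers w ≤ Hs w p X := by
  rw [Subgroup.zpowers_le]
  exact (Subgroup.subset_closure (Or.inl rfl) : w ∈ Subgroup.closure ({w} ∪ p '' X))

theorem p_mem {X : Set σ} {s : σ} (hs : s ∈ X) : p s ∈ Hs w p X :=
  Subgroup.subset_closure (Or.inr ⟨s, hs, rfl⟩)

theorem Hs_mono {X Y : Set σ} (h : X ⊆ Y) : Hs w p X ≤ Hs w p Y :=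
  Subgroup.closure_mono (Set.union_subset_union_right _ (Set.image_mono h))

theorem Rl_mono {X Y : Set σ} (h : X ⊆ Y) {L L' : Λ} (hr : Rl f w p X L L') : Rl f w p Y L L' := by
  obtain ⟨δ, δ', h1, h2, h3⟩ := hr
  exact ⟨δ, δ', h1, h2, Hs_mono h h3⟩

variable (hf : ∀ d d' : D, f d = f d' ↔ ∃ m : ℤ, d' = d * w ^ m) (hs : Function.Surjective f)

include hf

theorem Rl_iff {X : Set σ} {δ δ' : D} : Rl f w p X (f δ) (f δ') ↔ δ⁻¹ * δ' ∈ Hs w p X := by
  constructor
  · rintro ⟨ε, ε', h1, h2, h3⟩
    obtain ⟨m, rfl⟩ := (hf _ _).1 h1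
    obtain ⟨m', rfl⟩ := (hf _ _).1 h2
    have h4 := Subgroup.mul_mem _ (Subgroup.mul_mem _ (w_mem (p := p) X (-m)) h3) (w_mem (p := p) X m')
    have h5 : (ε * w ^ m)⁻¹ * (ε' * w ^ m') = w ^ (-m) * (ε⁻¹ * ε') * w ^ m' := by
      rw [zpow_neg]; group
    rwa [h5]
  · intro h
    exact ⟨δ, δ', rfl, rfl, h⟩

include hs

theorem Rl_refl (X : Set σ) (L : Λ) : Rl f w p X L L := by
  obtain ⟨δ, rfl⟩ := hs L
  rw [Rl_iff hf, inv_mul_cancel]
  exact Subgroup.one_mem _

omit hf hs in
theorem Rl_symm {X : Set σ} {L L' : Λ} (h : Rl f w p X L L') : Rl f w p X L' L := by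
  obtain ⟨δ, δ', h1, h2, h3⟩ := h
  refine ⟨δ', δ, h2, h1, ?_⟩
  have h4 := Subgroup.inv_mem _ h3
  rwa [mul_inv_rev, inv_inv] at h4

theorem Rl_trans {X : Set σ} {L L' L'' : Λ} (h : Rl f w p X L L') (h' : Rl f w p X L' L'') :
    Rl f w p X L L'' := by
  obtain ⟨δ, rfl⟩ := hs L
  obtain ⟨δ', rfl⟩ := hs L'
  obtain ⟨δ'', rfl⟩ := hs L''
  rw [Rl_iff hf] at h h' ⊢
  have h4 := Subgroup.mul_mem _ h h'
  rwa [mul_assoc, mul_inv_cancel_left] at h4

omit hf hs in
theorem Rl_El {X : Set σ} {s : σ} (hsX : s ∈ X) {L L' : Λ} (h : El f p s L L') : Rl f w p X L L' := by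
  obtain ⟨δ, rfl, rfl | rfl⟩ := h
  · exact ⟨_, _, rfl, rfl, by rw [inv_mul_cancel_left]; exact p_mem hsX⟩
  · exact ⟨_, _, rfl, rfl, by rw [inv_mul_cancel_left]; exact Subgroup.inv_mem _ (p_mem hsX)⟩

omit hf hs in
theorem El_symm {s : σ} {L L' : Λ} (h : El f p s L L') : El f p s L' L := by
  obtain ⟨δ, rfl, rfl | rfl⟩ := h
  · exact ⟨_, rfl, Or.inr (by rw [mul_inv_cancel_right])⟩
  · exact ⟨_, rfl, Or.inl (by rw [inv_mul_cancel_right])⟩

/-- The number of lines in a coset. -/
theorem card_coset [Finite D] (X : Set σ) (L : Λ) :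
    Nat.card {L' // Rl f w p X L L'} = (Subgroup.zpowers w).relIndex (Hs w p X) := by
  classical
  obtain ⟨δ, rfl⟩ := hs L
  show _ = ((Subgroup.zpowers w).subgroupOf (Hs w p X)).index
  rw [Subgroup.index_eq_card]
  symm
  refine Nat.card_congr (Equiv.ofBijective (fun q => ⟨f (δ * ((q.out : Hs w p X) : D)), ?_⟩) ⟨?_, ?_⟩)
  · rw [Rl_iff hf, inv_mul_cancel_left]
    exact (q.out).2
  · intro q q' h
    have h1 := congrArg Subtype.val h
    obtain ⟨m, hm⟩ := (hf _ _).1 h1
    have h2 : ((q.out)⁻¹ * q'.out : Hs w p X) ∈ (Subgroup.zpowers w).subgroupOf (Hs w p X) := by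
      rw [Subgroup.mem_subgroupOf]
      refine ⟨m, ?_⟩
      show w ^ m = ((q.out : Hs w p X) : D)⁻¹ * ((q'.out : Hs w p X) : D)
      rw [mul_assoc] at hm
      rw [mul_left_cancel hm, inv_mul_cancel_left]
    rw [← QuotientGroup.eq] at h2
    have e1 : ((q.out : Hs w p X) : Hs w p X ⧸ (Subgroup.zpowers w).subgroupOf (Hs w p X)) = q := Quotient.out_eq' q
    have e2 : ((q'.out : Hs w p X) : Hs w p X ⧸ (Subgroup.zpowers w).subgroupOf (Hs w p X)) = q' :=
      Quotient.out_eq' q'
    rw [e1, e2] at h2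
    exact h2
  · rintro ⟨L', hL'⟩
    obtain ⟨δ', rfl⟩ := hs L'
    rw [Rl_iff hf] at hL'
    refine ⟨((⟨_, hL'⟩ : Hs w p X) : Hs w p X ⧸ (Subgroup.zpowers w).subgroupOf (Hs w p X)), Subtype.ext ?_⟩
    show f _ = f δ'
    have h1 : ((((⟨_, hL'⟩ : Hs w p X) : Hs w p X ⧸ (Subgroup.zpowers w).subgroupOf (Hs w p X)).out)⁻¹ *
        (⟨_, hL'⟩ : Hs w p X)) ∈ (Subgroup.zpowers w).subgroupOf (Hs w p X) := by
      rw [← QuotientGroup.eq]
      exact Quotient.out_eq' _
    rw [Subgroup.mem_subgroupOf] at h1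
    obtain ⟨m, hm⟩ := h1
    rw [hf]
    refine ⟨m, ?_⟩
    have hm' : w ^ m = (((((⟨_, hL'⟩ : Hs w p X) : Hs w p X ⧸ (Subgroup.zpowers w).subgroupOf (Hs w p X)).out :
        Hs w p X) : D))⁻¹ * (δ⁻¹ * δ') := hm
    rw [hm', mul_assoc, mul_inv_cancel_left, mul_inv_cancel_left]

/-- The graph of the lines is connected. -/
theorem conn (hgen : Subgroup.closure ({w} ∪ Set.range p) = ⊤) (ρ : Λ → Λ → Prop) (hρ : Equivalence ρ)
    (hE : ∀ L L', (∃ s, El f p s L L') → ρ L L') : ∀ L L', ρ L L' := by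
  let K : Subgroup D :=
    { carrier := {g | ∀ δ, ρ (f δ) (f (δ * g))}
      one_mem' := fun δ => by rw [mul_one]; exact hρ.refl _
      mul_mem' := by
        intro g g' h1 h2 δ
        have h3 := h2 (δ * g)
        rw [mul_assoc] at h3
        exact hρ.trans (h1 δ) h3
      inv_mem' := by
        intro g h1 δ
        have h2 := h1 (δ * g⁻¹)
        rw [inv_mul_cancel_right] at h2
        exact hρ.symm h2 }
  have hK : K = ⊤ := by
    rw [eq_top_iff, ← hgen, Subgroup.closure_le]
    rintro g (rfl | ⟨s, rfl⟩)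
    · intro δ
      rw [(hf δ (δ * g)).2 ⟨1, by rw [zpow_one]⟩]
      exact hρ.refl _
    · exact fun δ => hE _ _ ⟨s, δ, rfl, Or.inl rfl⟩
  intro L L'
  obtain ⟨δ, rfl⟩ := hs L
  obtain ⟨δ', rfl⟩ := hs L'
  have h : δ⁻¹ * δ' ∈ K := by rw [hK]; exact Subgroup.mem_top _
  have h1 := h δ
  rwa [mul_inv_cancel_left] at h1

/-- The lines without the line `y₀` of class `true`. -/
theorem card_false [Finite D] [Finite Λ] (X : Set σ) (L : Λ) (cl : Λ → Bool) (y₀ : Λ) (h0 : cl y₀ = true)
    (hone : ∀ y, cl y = true → y = y₀) (hr : Rl f w p X L y₀) :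
    Nat.card {L' // Rl f w p X L L' ∧ cl L' = false} + 1 = (Subgroup.zpowers w).relIndex (Hs w p X) := by
  classical
  cases nonempty_fintype Λ
  rw [← card_coset hf hs X L, Nat.card_eq_fintype_card, Nat.card_eq_fintype_card, Fintype.card_subtype,
    Fintype.card_subtype]
  have h1 : (Finset.univ.filter fun L' => Rl f w p X L L') =
      insert y₀ (Finset.univ.filter fun L' => Rl f w p X L L' ∧ cl L' = false) := by
    ext y
    simp only [Finset.mem_filter, Finset.mem_univ, true_and, Finset.mem_insert]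
    constructor
    · intro h
      rcases Bool.eq_false_or_eq_true (cl y) with h2 | h2
      · exact Or.inl (hone y h2)
      · exact Or.inr ⟨h, h2⟩
    · rintro (rfl | h)
      · exact hr
      · exact h.1
  rw [h1, Finset.card_insert_of_notMem]
  intro h
  rw [(Finset.mem_filter.1 h).2.2] at h0
  exact absurd h0 (by decide)

theorem card_false' [Finite D] (X : Set σ) (L : Λ) (cl : Λ → Bool)
    (h : ∀ y, Rl f w p X L y → cl y = false) :
    Nat.card {L' // Rl f w p X L L' ∧ cl L' = false} = (Subgroup.zpowers w).relIndex (Hs w p X) := by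
  rw [← card_coset hf hs X L]
  exact Nat.card_congr (Equiv.subtypeEquivRight fun y => ⟨fun h' => h'.1, fun h' => ⟨h', h y h'⟩⟩)

/-- TREE with letters. -/
theorem treeLet [Finite D] [Finite Λ] [DecidableEq σ] (hgen : Subgroup.closure ({w} ∪ Set.range p) = ⊤)
    (h3 : 3 ≤ Nat.card Λ) :
    ∃ (d cl : Λ → Bool) (N : ℕ) (c l m : Fin N → Λ) (t t' : Fin N → σ) (rk : Fin N → ℕ), 0 < N ∧ N ≤ Nat.card Λ ∧
      (∀ i, El f p (t i) (c i) (l i)) ∧ (∀ i, El f p (t' i) (c i) (m i)) ∧ (∀ i, d (l i) = !d (c i)) ∧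
      (∀ i, d (m i) = !d (c i)) ∧ (∀ i, cl (c i) = false ∧ cl (l i) = false ∧ cl (m i) = false) ∧
      (∀ y y', cl y = true → cl y' = true → y = y') ∧ TreeK id cl c l m rk ∧
      ∀ (σ₀ : Finset σ) (γ : Bool), (∃ y, cl y = γ) → ∃ (i : Fin N) (X : Finset σ), σ₀ ⊆ X ∧ X.card ≤ σ₀.card + 5 ∧ t i ∈ X ∧ t' i ∈ X ∧
        Odd (Nat.card {L // Rl f w p (X : Set σ) (c i) L ∧ cl L = γ}) := by
  classical
  obtain ⟨d, cl, N, c, l, m, rk, hN, hEl, hEm, hd₁, hd₂, hcl, hone, hodd, hT, hcov⟩ :=
    H58.treeAbs Λ (fun L L' => ∃ s, El f p s L L') (fun _ _ ⟨s, h⟩ => ⟨s, El_symm h⟩)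
      (fun ρ hρ hE => conn hf hs hgen ρ hρ hE) h3
  choose t ht using hEl
  choose t' ht' using hEm
  have hidx : (Subgroup.zpowers w).index = Nat.card Λ := by
    have h1 := card_coset (p := p) hf hs Set.univ (f 1)
    have h2 : Hs w p Set.univ = ⊤ := by
      unfold Hs
      rw [Set.image_univ]
      exact hgen
    rw [h2, Subgroup.relIndex_top_right] at h1
    rw [← h1]
    refine Nat.card_congr (Equiv.subtypeUnivEquiv fun L => ?_)
    obtain ⟨δ, rfl⟩ := hs L
    rw [Rl_iff hf, h2]
    exact Subgroup.mem_top _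
  have hdvd : ∀ X : Set σ, (Subgroup.zpowers w).relIndex (Hs w p X) ∣ (Subgroup.zpowers w).index := fun X =>
    ⟨_, (Subgroup.relIndex_mul_index (W_le X)).symm⟩
  have hNΛ : N ≤ Nat.card Λ := by
    choose q hq1 hq2 using hT.two
    have h1 : ∀ n, ∃ y, q n y ∧ (y = c n ∨ y = l n ∨ y = m n) := by
      intro n
      rcases hq1 n with h | h | h
      · exact ⟨_, h.1, Or.inl rfl⟩
      · exact ⟨_, h.1, Or.inl rfl⟩
      · exact ⟨_, h.1, Or.inr (Or.inl rfl)⟩
    choose y hy1 hy2 using h1
    have h2 : Function.Injective y := by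
      intro n n' hnn
      by_contra hne
      have h3 := hq2 n (y n) (hy1 n) n' (fun h => hne h.symm) (by rw [hnn]; exact hy2 n')
      have h4 := hq2 n' (y n') (hy1 n') n hne (by rw [← hnn]; exact hy2 n)
      omega
    have h3 := Nat.card_le_card_of_injective _ h2
    rwa [Nat.card_fin] at h3
  refine ⟨d, cl, N, c, l, m, t, t', rk, hN, hNΛ, ht, ht', hd₁, hd₂, hcl, hone, hT, ?_⟩
  intro σ₀
  by_cases hy0 : ∃ y, cl y = true
  swap
  · -- no line of class `true`
    have hall : ∀ y, cl y = false := fun y => by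
      rcases Bool.eq_false_or_eq_true (cl y) with h | h
      · exact absurd ⟨y, h⟩ hy0
      · exact h
    rintro γ ⟨y, rfl⟩
    rw [hall y]
    refine ⟨⟨0, hN⟩, σ₀ ∪ {t ⟨0, hN⟩, t' ⟨0, hN⟩}, Finset.subset_union_left, ?_, ?_, ?_, ?_⟩
    · refine (Finset.card_union_le _ _).trans (Nat.add_le_add_left ?_ _)
      exact (Finset.card_le_two).trans (by norm_num)
    · exact Finset.mem_union_right _ (Finset.mem_insert_self _ _)
    · exact Finset.mem_union_right _ (Finset.mem_insert_of_mem (Finset.mem_singleton_self _))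
    · rw [card_false' hf hs _ _ _ fun y _ => hall y]
      have h1 : Odd (Subgroup.zpowers w).index := by
        rw [hidx]
        have h2 : Nat.card {y // cl y = false} = Nat.card Λ := Nat.card_congr (Equiv.subtypeUnivEquiv hall)
        rwa [h2] at hodd
      exact h1.of_dvd_nat (hdvd _)
  · obtain ⟨y₀, h0⟩ := hy0
    have hone' : ∀ y, cl y = true → y = y₀ := fun y h => hone y y₀ h h0
    -- the number of lines is even
    have heven : Even (Subgroup.zpowers w).index := by
      have h1 := card_false (p := p) hf hs Set.univ (f 1) cl y₀ h0 hone' (by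
        obtain ⟨δ, rfl⟩ := hs y₀
        have h2 : Hs w p Set.univ = ⊤ := by
          unfold Hs
          rw [Set.image_univ]
          exact hgen
        rw [Rl_iff hf, h2]
        exact Subgroup.mem_top _)
      have h2 : Hs w p Set.univ = ⊤ := by
        unfold Hs
        rw [Set.image_univ]
        exact hgen
      have h3 : ∀ L, Rl f w p Set.univ (f 1) L := by
        intro L
        obtain ⟨δ, rfl⟩ := hs L
        rw [Rl_iff hf, h2]
        exact Subgroup.mem_top _
      rw [h2, Subgroup.relIndex_top_right, Nat.card_congr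
        (Equiv.subtypeEquivRight (q := fun L => cl L = false) fun L => ⟨fun h => h.2, fun h => ⟨h3 L, h⟩⟩)] at h1
      rw [← h1]
      exact hodd.add_one
    -- a letter at `y₀`
    obtain ⟨t₀, L₁, hL₁, hne⟩ : ∃ t₀ L₁, El f p t₀ y₀ L₁ ∧ L₁ ≠ y₀ := by
      by_contra hcon
      push Not at hcon
      have h1 : ∀ L L', (L = y₀ ↔ L' = y₀) := conn (p := p) hf hs hgen (fun L L' => (L = y₀ ↔ L' = y₀))
        ⟨fun _ => Iff.rfl, fun h => h.symm, fun h h' => h.trans h'⟩ (by
          rintro L L' ⟨s, h⟩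
          constructor
          · rintro rfl
            exact hcon s L' h
          · rintro rfl
            exact hcon s L (El_symm h))
      have h2 : Subsingleton Λ := ⟨fun L L' => by rw [(h1 y₀ L).1 rfl, (h1 y₀ L').1 rfl]⟩
      have h4 := Finite.card_le_one_iff_subsingleton.2 h2
      omega
    have hcl1 : cl L₁ = false := by
      rcases Bool.eq_false_or_eq_true (cl L₁) with h | h
      · exact absurd (hone' _ h) hne
      · exact h
    obtain ⟨j₀, hj₀⟩ := hcov L₁ hcl1
    let X : Fin N → Finset σ := fun i => σ₀ ∪ {t i, t' i, t₀}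
    have hX0 : ∀ i, σ₀ ⊆ X i := fun i => Finset.subset_union_left
    have hXt : ∀ i, t i ∈ X i := fun i => Finset.mem_union_right _ (Finset.mem_insert_self _ _)
    have hXt' : ∀ i, t' i ∈ X i := fun i =>
      Finset.mem_union_right _ (Finset.mem_insert_of_mem (Finset.mem_insert_self _ _))
    have hXt0 : ∀ i, t₀ ∈ X i := fun i =>
      Finset.mem_union_right _ (Finset.mem_insert_of_mem (Finset.mem_insert_of_mem (Finset.mem_singleton_self _)))
    have hXc : ∀ i, (X i).card ≤ σ₀.card + 3 := fun i =>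
      (Finset.card_union_le _ _).trans (Nat.add_le_add_left Finset.card_le_three _)
    -- the lines of the path `i` are in the coset
    have hpath : ∀ i (Y : Set σ), (X i : Set σ) ⊆ Y → ∀ L, (L = c i ∨ L = l i ∨ L = m i) → Rl f w p Y (c i) L := by
      intro i Y hY L hL
      rcases hL with rfl | rfl | rfl
      · exact Rl_refl hf hs _ _
      · exact Rl_El (hY (hXt i)) (ht i)
      · exact Rl_El (hY (hXt' i)) (ht' i)
    let near : Fin N → Prop := fun i => Rl f w p (X i : Set σ) (c i) y₀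
    have hj0 : near j₀ := by
      refine Rl_trans hf hs (hpath j₀ _ (fun _ h => h) L₁ hj₀) ?_
      exact Rl_El (hXt0 j₀) (El_symm hL₁)
    intro γ hγ
    cases γ with
    | true =>
      refine ⟨j₀, X j₀, hX0 _, (hXc _).trans (by omega), hXt _, hXt' _, ?_⟩
      have h1 : Nat.card {L // Rl f w p (X j₀ : Set σ) (c j₀) L ∧ cl L = true} = 1 := by
        rw [Nat.card_eq_one_iff_unique]
        exact ⟨⟨fun a b => Subtype.ext (hone _ _ a.2.2 b.2.2)⟩, ⟨⟨y₀, hj0, h0⟩⟩⟩
      rw [h1]
      exact odd_one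
    | false =>
      -- the number of lines of class `false` in a coset
      have hnear : ∀ (i : Fin N) (Y : Finset σ), Rl f w p (Y : Set σ) (c i) y₀ →
          Even ((Subgroup.zpowers w).relIndex (Hs w p (Y : Set σ))) →
          Odd (Nat.card {L // Rl f w p (Y : Set σ) (c i) L ∧ cl L = false}) := by
        intro i Y h1 h2
        rw [← card_false (p := p) hf hs (Y : Set σ) (c i) cl y₀ h0 hone' h1] at h2
        rw [Nat.even_add_one, Nat.not_even_iff_odd] at h2
        exact h2
      have hfar : ∀ (i : Fin N) (Y : Finset σ), ¬ Rl f w p (Y : Set σ) (c i) y₀ →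
          Odd ((Subgroup.zpowers w).relIndex (Hs w p (Y : Set σ))) →
          Odd (Nat.card {L // Rl f w p (Y : Set σ) (c i) L ∧ cl L = false}) := by
        intro i Y h1 h2
        rwa [card_false' hf hs _ _ _ fun y hy => ?_]
        rcases Bool.eq_false_or_eq_true (cl y) with h | h
        · rw [hone' y h] at hy
          exact absurd hy h1
        · exact h
      by_cases hG : ∃ i, (near i ∧ Even ((Subgroup.zpowers w).relIndex (Hs w p (X i : Set σ)))) ∨
          (¬ near i ∧ Odd ((Subgroup.zpowers w).relIndex (Hs w p (X i : Set σ))))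
      · obtain ⟨i, h | h⟩ := hG
        · exact ⟨i, X i, hX0 _, (hXc _).trans (by omega), hXt _, hXt' _, hnear i (X i) h.1 h.2⟩
        · exact ⟨i, X i, hX0 _, (hXc _).trans (by omega), hXt _, hXt' _, hfar i (X i) h.1 h.2⟩
      · push Not at hG
        by_cases hall : ∀ i, near i
        · -- case alpha
          exfalso
          obtain ⟨g, hg⟩ := exists_even (Subgroup.zpowers w) heven
          obtain ⟨δ₀, hδ₀⟩ := hs y₀
          have hgW : g ∉ Subgroup.zpowers w := by
            intro h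
            have h1 : Subgroup.zpowers w ⊔ Subgroup.zpowers g = Subgroup.zpowers w := by
              rw [sup_eq_left, Subgroup.zpowers_le]
              exact h
            rw [h1, Subgroup.relIndex_self] at hg
            exact absurd hg (by decide)
          have h1 : f (δ₀ * g) ≠ y₀ := by
            rw [← hδ₀]
            intro h
            obtain ⟨m', hm'⟩ := (hf _ _).1 h.symm
            exact hgW ⟨m', (mul_left_cancel hm').symm⟩
          have h2 : cl (f (δ₀ * g)) = false := by
            rcases Bool.eq_false_or_eq_true (cl (f (δ₀ * g))) with h | h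
            · exact absurd (hone' _ h) h1
            · exact h
          obtain ⟨i, hi⟩ := hcov _ h2
          have h3 : Rl f w p (X i : Set σ) y₀ (f (δ₀ * g)) :=
            Rl_trans hf hs (Rl_symm (hall i)) (hpath i _ (fun _ h => h) _ hi)
          rw [← hδ₀, Rl_iff hf, inv_mul_cancel_left] at h3
          have h4 : Subgroup.zpowers w ⊔ Subgroup.zpowers g ≤ Hs w p (X i : Set σ) := by
            rw [sup_le_iff, Subgroup.zpowers_le (g := g)]
            exact ⟨W_le _, h3⟩
          have h5 := Subgroup.relIndex_mul_relIndex (Subgroup.zpowers w) (Subgroup.zpowers w ⊔ Subgroup.zpowers g)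
            (Hs w p (X i : Set σ)) le_sup_left h4
          have h6 : Even ((Subgroup.zpowers w).relIndex (Hs w p (X i : Set σ))) := by
            rw [← h5]
            exact hg.mul_right _
          exact (hG i).1 (hall i) h6
        · -- case beta
          push Not at hall
          obtain ⟨i₀, hi₀⟩ := hall
          obtain ⟨i, j, L, hi, hj, hLi, hLj⟩ : ∃ i j L, ¬ near i ∧ near j ∧ (L = c i ∨ L = l i ∨ L = m i) ∧
              (L = c j ∨ L = l j ∨ L = m j) := by
            by_contra hcon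
            push Not at hcon
            let U : Λ → Prop := fun L => ∃ j, near j ∧ (L = c j ∨ L = l j ∨ L = m j)
            have hU : ∀ i, ¬ near i → ∀ L, (L = c i ∨ L = l i ∨ L = m i) → ¬ U L := by
              rintro i hi L hL ⟨j, hj, hLj⟩
              obtain ⟨h1, h2, h3⟩ := hcon i j L hi hj hL
              rcases hLj with h | h | h
              · exact h1 h
              · exact h2 h
              · exact h3 h
            have h1 := hT.cov (fun L L' => (U L ↔ U L')) ⟨fun _ => Iff.rfl, fun h => h.symm, fun h h' => h.trans h'⟩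
              (fun i => by
                by_cases hi : near i
                · exact ⟨iff_of_true ⟨i, hi, Or.inl rfl⟩ ⟨i, hi, Or.inr (Or.inl rfl)⟩,
                    iff_of_true ⟨i, hi, Or.inl rfl⟩ ⟨i, hi, Or.inr (Or.inr rfl)⟩⟩
                · exact ⟨iff_of_false (hU i hi _ (Or.inl rfl)) (hU i hi _ (Or.inr (Or.inl rfl))),
                    iff_of_false (hU i hi _ (Or.inl rfl)) (hU i hi _ (Or.inr (Or.inr rfl)))⟩)
              (c j₀) (c i₀) ((hcl j₀).1.trans (hcl i₀).1.symm)
            exact hU i₀ hi₀ (c i₀) (Or.inl rfl) (h1.1 ⟨j₀, hj0, Or.inl rfl⟩)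
          have hYi : ((X i : Finset σ) : Set σ) ⊆ ((X i ∪ X j : Finset σ) : Set σ) := by
            exact_mod_cast Finset.subset_union_left
          have hYj : ((X j : Finset σ) : Set σ) ⊆ ((X i ∪ X j : Finset σ) : Set σ) := by
            exact_mod_cast Finset.subset_union_right
          have hni : Even ((Subgroup.zpowers w).relIndex (Hs w p (X i : Set σ))) := by
            rw [← Nat.not_odd_iff_even]
            exact (hG i).2 hi
          have hnY : Even ((Subgroup.zpowers w).relIndex (Hs w p ((X i ∪ X j : Finset σ) : Set σ))) := by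
            rw [← Subgroup.relIndex_mul_relIndex (Subgroup.zpowers w) (Hs w p (X i : Set σ)) _ (W_le _) (Hs_mono hYi)]
            exact hni.mul_right _
          have hr : Rl f w p ((X i ∪ X j : Finset σ) : Set σ) (c i) y₀ := by
            refine Rl_trans hf hs (hpath i _ hYi L hLi) (Rl_trans hf hs (Rl_symm (hpath j _ hYj L hLj)) ?_)
            exact Rl_mono hYj hj
          refine ⟨i, X i ∪ X j, (hX0 i).trans Finset.subset_union_left, ?_, Finset.mem_union_left _ (hXt i),
            Finset.mem_union_left _ (hXt' i), hnear i _ hr hnY⟩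
          have h1 : X i ∪ X j ⊆ σ₀ ∪ {t i, t' i, t₀, t j, t' j} := by
            intro s hs'
            simp only [X, Finset.mem_union, Finset.mem_insert, Finset.mem_singleton] at hs' ⊢
            rcases hs' with (h | h | h | h) | (h | h | h | h)
            · exact Or.inl h
            · exact Or.inr (Or.inl h)
            · exact Or.inr (Or.inr (Or.inl h))
            · exact Or.inr (Or.inr (Or.inr (Or.inl h)))
            · exact Or.inl h
            · exact Or.inr (Or.inr (Or.inr (Or.inr (Or.inl h))))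
            · exact Or.inr (Or.inr (Or.inr (Or.inr (Or.inr h))))
            · exact Or.inr (Or.inr (Or.inr (Or.inl h)))
          refine (Finset.card_le_card h1).trans ((Finset.card_union_le _ _).trans (Nat.add_le_add_left ?_ _))
          exact Finset.card_le_five

end

end Pool.Agent.Lib.MP_688fd0_co.SQ5.H68L
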