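import Pool.Agent.Lib.MP_688fd0_co.SQ5.NA.Iface
import Pool.Agent.Lib.MP_688fd0_co.SQ5.H68.TreeLet

/-!
NEAR-ALL, row TREEA (helper68): the tree of the lines with all letters and the choice of a path and of a set of letters.

`w = z wD`, `a s⁻¹ = z ^ n pD s`. The lines are the cosets `D / ⟨wD⟩`.
-/

set_option autoImplicit false

namespace Pool.Agent.Lib.MP_688fd0_co.SQ5.NA.H68

open Pool.Agent.Lib.MP_688fd0_co.OSF Pool.Agent.Lib.MP_688fd0_co.SQ2 Pool.Agent.Lib.MP_688fd0_co.SQ3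
open Pool.Agent.Lib.MP_688fd0_co.SQ4 Pool.Agent.Lib.MP_688fd0_co.SQ5.N
open Pool.Agent.Lib.MP_688fd0_co.SQ5.H68L (Hs Rl El treeLet sum_ne Rl_iff)

section

variable {Q : Type} [Group Q] {B : Lb.{0, 0} Q} {a b : B.L} {eps : Q →* ℤˣ} {D : Subgroup Q} {z : Q} {k τ : ℕ}
  {num den : B.L → ℕ} (H : HypG B a b eps D z k τ num den)

include H

theorem eps_w : eps (B.q a * (B.q b)⁻¹) = 1 := by rw [map_mul, map_inv, H.neg, H.neg]; decide

theorem U_one {x : Q} (h : eps x = 1) : H.up.U x = x * B.q a := if_pos h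

theorem U_neg {x : Q} (h : eps x ≠ 1) : H.up.U x = x * (B.q b)⁻¹ := if_neg h

theorem U_two {x : Q} (h : eps x = 1) : H.up.U (H.up.U x) = x * (B.q a * (B.q b)⁻¹) := by
  have h1 : eps (x * B.q a) ≠ 1 := by rw [map_mul, h, H.neg]; decide
  rw [U_one H h, U_neg H h1, mul_assoc]

theorem U_pow {x : Q} (h : eps x = 1) (n : ℕ) : (H.up.U ^ (2 * n)) x = x * (B.q a * (B.q b)⁻¹) ^ n := by
  induction n with
  | zero => rw [mul_zero, pow_zero, pow_zero, mul_one]; rfl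
  | succ n ih =>
    have h1 : eps (x * (B.q a * (B.q b)⁻¹) ^ n) = 1 := by rw [map_mul, map_pow, eps_w H, h, one_pow, one_mul]
    rw [show 2 * (n + 1) = 2 * n + 1 + 1 by ring, H.up.U_pow_succ', H.up.U_pow_succ', ih, U_two H h1, pow_succ,
      mul_assoc]

theorem U_even {y : Q} (hy : eps y = 1) (m : ℤ) : (H.up.U ^ (2 * m)) y = y * (B.q a * (B.q b)⁻¹) ^ m := by
  rcases Int.eq_nat_or_neg m with ⟨n, rfl | rfl⟩
  · have h := U_pow H hy n
    have e : ((2 * (n : ℤ)) : ℤ) = ((2 * n : ℕ) : ℤ) := by push_cast; ring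
    rw [e, zpow_natCast, zpow_natCast]
    exact h
  · have e : (2 * (-(n : ℤ)) : ℤ) = -((2 * n : ℕ) : ℤ) := by push_cast; ring
    rw [e, zpow_neg, zpow_natCast]
    apply (H.up.U ^ (2 * n)).injective
    have h1 : eps (y * (B.q a * (B.q b)⁻¹) ^ (-(n : ℤ))) = 1 := by
      rw [map_mul, map_zpow, eps_w H, one_zpow, hy, one_mul]
    rw [U_pow H h1]
    have h2 : (H.up.U ^ (2 * n)) (((H.up.U ^ (2 * n))⁻¹) y) = y := (H.up.U ^ (2 * n)).apply_symm_apply y
    rw [h2, zpow_neg, zpow_natCast, inv_mul_cancel_right]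

omit H in
theorem lnU_z (U : Up B) (x : Q) (o : ℤ) : lnU U ((U.U ^ o) x) = lnU U x :=
  Quotient.sound (show Equiv.Perm.SameCycle U.U ((U.U ^ o) x) x from ⟨-o, by
    rw [zpow_neg]; exact (U.U ^ o).symm_apply_apply x⟩)

omit H in
theorem lnU_U (U : Up B) (x : Q) : lnU U (U.U x) = lnU U x := by
  have h := lnU_z U x 1
  rwa [zpow_one] at h

theorem lnU_iff {x y : Q} (hx : eps x = 1) (hy : eps y = 1) :
    lnU H.up x = lnU H.up y ↔ ∃ m : ℤ, y = x * (B.q a * (B.q b)⁻¹) ^ m := by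
  constructor
  · intro h
    obtain ⟨o, ho⟩ : Equiv.Perm.SameCycle H.up.U x y := Quotient.exact h
    rcases Int.even_or_odd' o with ⟨m, rfl | rfl⟩
    · exact ⟨m, by rw [← ho, U_even H hx]⟩
    · exfalso
      have h1 : eps (x * (B.q a * (B.q b)⁻¹) ^ m) = 1 := by rw [map_mul, map_zpow, eps_w H, one_zpow, hx, one_mul]
      have h2 : (H.up.U ^ (2 * m + 1)) x = x * (B.q a * (B.q b)⁻¹) ^ m * B.q a := by
        rw [add_comm, zpow_add, Equiv.Perm.mul_apply, U_even H hx, zpow_one, U_one H h1]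
      rw [h2] at ho
      rw [← ho, map_mul, h1, H.neg] at hy
      exact absurd hy (by decide)
  · rintro ⟨m, rfl⟩
    rw [← U_even H hx, lnU_z]

theorem ln_w {x : Q} (hx : eps x = 1) (m : ℤ) : lnU H.up (x * (B.q a * (B.q b)⁻¹) ^ m) = lnU H.up x := by
  symm
  rw [lnU_iff H hx (by rw [map_mul, map_zpow, eps_w H, one_zpow, hx, one_mul])]
  exact ⟨m, rfl⟩

theorem lnU_ker (L : Quotient (Equiv.Perm.SameCycle.setoid H.up.U)) : ∃ y, eps y = 1 ∧ lnU H.up y = L := by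
  obtain ⟨x, rfl⟩ := Quotient.exists_rep L
  rcases Int.units_eq_one_or (eps x) with h | h
  · exact ⟨x, h, rfl⟩
  · have h0 : eps x ≠ 1 := by rw [h]; decide
    refine ⟨H.up.U x, ?_, lnU_U _ _⟩
    rw [U_neg H h0, map_mul, map_inv, h, H.neg]
    decide

theorem copk : (orderOf z).Coprime k := by
  rw [Nat.coprime_iff_gcd_eq_one]
  by_contra h
  obtain ⟨p, hp, hpd⟩ := Nat.exists_prime_and_dvd h
  have hf := H.fin
  have h1 : p ∈ (orderOf z).primeFactors :=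
    Nat.mem_primeFactors.2 ⟨hp, hpd.trans (Nat.gcd_dvd_left _ _), (orderOf_pos z).ne'⟩
  have h2 := (H.cop p h1).1
  have h3 := Nat.le_of_dvd H.kpos (hpd.trans (Nat.gcd_dvd_right _ _))
  omega

/-- The powers of `z` meet `D` in `1` only. -/
theorem dis {n : ℤ} (h : z ^ n ∈ D) : z ^ n = 1 := by
  have := H.fin
  have h1 : orderOf (z ^ n) ∣ Nat.card D := by
    have := orderOf_dvd_natCard (⟨z ^ n, h⟩ : D)
    rwa [Subgroup.orderOf_mk] at this
  have h2 : orderOf (z ^ n) ∣ orderOf z := by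
    rw [orderOf_dvd_iff_pow_eq_one, ← zpow_natCast, ← zpow_mul, mul_comm, zpow_mul, zpow_natCast, pow_orderOf_eq_one,
      one_zpow]
  have h3 := copk H
  rw [← orderOf_eq_one_iff, ← Nat.dvd_one, ← h3]
  exact Nat.dvd_gcd h2 (h1.trans H.card)

theorem eps_D (d : D) : eps (d : Q) = 1 := H.leD d.2

theorem z_comm (d : D) (n : ℤ) : (d : Q) * z ^ n = z ^ n * d :=
  ((show Commute (d : Q) z from H.cen _ (eps_D H d)).zpow_right n).eq

theorem eps_z (n : ℤ) (d : D) : eps (z ^ n * (d : Q)) = 1 := by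
  rw [map_mul, map_zpow, H.ez, one_zpow, eps_D H, one_mul]

/-- The `D`-part of `w`. -/
def wD (H : HypG B a b eps D z k τ num den) : D := ⟨z⁻¹ * (B.q a * (B.q b)⁻¹), H.mw⟩

theorem w_zpow (m : ℤ) : (B.q a * (B.q b)⁻¹) ^ m = z ^ m * ((wD H ^ m : D) : Q) := by
  have h1 : B.q a * (B.q b)⁻¹ = z * (wD H : Q) := by
    show _ = z * (z⁻¹ * (B.q a * (B.q b)⁻¹))
    rw [mul_inv_cancel_left]
  have h2 : Commute z (wD H : Q) := (show Commute (wD H : Q) z from H.cen _ (eps_D H _)).symm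
  rw [h1, h2.mul_zpow, Subgroup.coe_zpow]

theorem wD_k : wD H ^ k = 1 := by
  have := H.fin
  exact orderOf_dvd_iff_pow_eq_one.1 ((orderOf_dvd_natCard (wD H)).trans H.card)

/-- `z` is a power of `w`. -/
theorem z_mem : z ∈ Subgroup.zpowers (B.q a * (B.q b)⁻¹) := by
  have h1 : (B.q a * (B.q b)⁻¹) ^ k = z ^ k := by
    have h2 := w_zpow H (k : ℤ)
    rw [zpow_natCast, zpow_natCast, zpow_natCast, wD_k H] at h2
    rw [h2]
    exact mul_one _
  obtain ⟨m, hm⟩ := exists_pow_eq_self_of_coprime (x := z) (n := k) (copk H).symm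
  rw [← h1] at hm
  rw [← hm, ← pow_mul]
  exact Subgroup.npow_mem_zpowers _ _

theorem ln_z (d : D) (n : ℤ) : lnU H.up (z ^ n * (d : Q)) = lnU H.up (d : Q) := by
  obtain ⟨m, hm⟩ := z_mem H
  have hm' : (B.q a * (B.q b)⁻¹) ^ m = z := hm
  have h0 : z ^ n = (B.q a * (B.q b)⁻¹) ^ (m * n) := by rw [zpow_mul, hm']
  rw [← z_comm H, h0, ln_w H (eps_D H d)]

theorem lnD_ex (L : Quotient (Equiv.Perm.SameCycle.setoid H.up.U)) : ∃ d : D, lnU H.up (d : Q) = L := by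
  obtain ⟨y, hy, rfl⟩ := lnU_ker H L
  obtain ⟨n, d, hd, rfl⟩ := H.ker y hy
  exact ⟨⟨d, hd⟩, (ln_z H ⟨d, hd⟩ n).symm⟩

theorem lnD_iff (d d' : D) : lnU H.up (d : Q) = lnU H.up (d' : Q) ↔ ∃ m : ℤ, d' = d * wD H ^ m := by
  constructor
  · intro h
    obtain ⟨m, hm⟩ := (lnU_iff H (eps_D H d) (eps_D H d')).1 h
    refine ⟨m, ?_⟩
    rw [w_zpow H, ← mul_assoc, z_comm H, mul_assoc] at hm
    have h4 : z ^ m = ((d' * (d * wD H ^ m)⁻¹ : D) : Q) := by
      rw [Subgroup.coe_mul, Subgroup.coe_inv, eq_mul_inv_iff_mul_eq, hm]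
      rfl
    have h5 : z ^ m = 1 := dis H (by rw [h4]; exact Subtype.property _)
    rw [h5] at h4
    have h6 : (d' * (d * wD H ^ m)⁻¹ : D) = 1 := Subtype.ext h4.symm
    exact (mul_inv_eq_one.1 h6)
  · rintro ⟨m, rfl⟩
    rw [← ln_z H (d * wD H ^ m) m, ← ln_w H (eps_D H d) m, w_zpow H]
    congr 1
    rw [← mul_assoc, z_comm H, mul_assoc]
    rfl

/-! ### The letters -/

theorem exists_p (s : {s : B.L // s ≠ a ∧ s ≠ b}) : ∃ (n : ℤ) (d : D), B.q a * (B.q s.1)⁻¹ = z ^ n * (d : Q) := by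
  obtain ⟨-, -, -, v, ⟨n, hn⟩, -, h⟩ := H.near s.1 s.2.1 s.2.2
  refine ⟨n, ⟨_, h⟩, ?_⟩
  have hn' : z ^ n = v := hn
  rw [hn']
  show _ = v * (v⁻¹ * (B.q a * (B.q s.1)⁻¹))
  rw [mul_inv_cancel_left]

/-- The extension of a subgroup of `D` by `z`. -/
def ext (H : HypG B a b eps D z k τ num den) (M : Subgroup D) : Subgroup Q where
  carrier := {x | ∃ (n : ℤ) (d : D), d ∈ M ∧ x = z ^ n * (d : Q)}
  one_mem' := ⟨0, 1, M.one_mem, by rw [zpow_zero, one_mul]; rfl⟩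
  mul_mem' := by
    rintro _ _ ⟨n, d, hd, rfl⟩ ⟨n', d', hd', rfl⟩
    refine ⟨n + n', d * d', M.mul_mem hd hd', ?_⟩
    rw [mul_assoc (z ^ n), ← mul_assoc (d : Q), z_comm H, zpow_add, Subgroup.coe_mul]
    simp only [mul_assoc]
  inv_mem' := by
    rintro _ ⟨n, d, hd, rfl⟩
    refine ⟨-n, d⁻¹, M.inv_mem hd, ?_⟩
    rw [mul_inv_rev, ← zpow_neg, Subgroup.coe_inv]
    exact z_comm H d⁻¹ (-n)

theorem ext_D {M : Subgroup D} {h : D} (hh : (h : Q) ∈ ext H M) : h ∈ M := by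
  obtain ⟨n, d, hd, e⟩ := hh
  have h1 : z ^ n = ((h * d⁻¹ : D) : Q) := by
    rw [Subgroup.coe_mul, Subgroup.coe_inv, e, mul_inv_cancel_right]
  have h2 : z ^ n = 1 := dis H (by rw [h1]; exact Subtype.property _)
  rw [h2, one_mul] at e
  rwa [Subtype.ext e]

/-- Schreier. -/
theorem schreier {K : Subgroup Q} (hK : ∀ s, B.q a * (B.q s)⁻¹ ∈ K) {g : Q} (hg : eps g = 1) : g ∈ K := by
  have := H.fin
  have key : ∀ g : Q, (eps g = 1 ∧ g ∈ K) ∨ (eps g = -1 ∧ g * (B.q a)⁻¹ ∈ K) := by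
    intro g
    have hg : g ∈ Subgroup.closure (Set.range B.q) := by rw [H.gen]; exact Subgroup.mem_top _
    have h1 : g ∈ Submonoid.closure (Set.range B.q) := by
      rw [← Subgroup.closure_toSubmonoid_of_finite]
      exact hg
    clear hg
    induction h1 using Submonoid.closure_induction_right with
    | one => exact Or.inl ⟨map_one _, K.one_mem⟩
    | mul_right g _ y hy ih =>
      obtain ⟨s, rfl⟩ := hy
      have h3 : B.q s * (B.q a)⁻¹ ∈ K := by
        have h := K.inv_mem (hK s)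
        rwa [mul_inv_rev, inv_inv] at h
      rcases ih with ⟨h4, h5⟩ | ⟨h4, h5⟩
      · refine Or.inr ⟨by rw [map_mul, h4, H.neg, one_mul], ?_⟩
        rw [mul_assoc]
        exact K.mul_mem h5 h3
      · refine Or.inl ⟨by rw [map_mul, h4, H.neg]; decide, ?_⟩
        have h6 := K.mul_mem h5 (K.inv_mem h3)
        have h7 : g * (B.q a)⁻¹ * (B.q s * (B.q a)⁻¹)⁻¹ = g * B.q s := by
          rw [mul_inv_rev, inv_inv, mul_assoc, inv_mul_cancel_left, inv_eq_of_mul_eq_one_right (H.inv s)]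
        rwa [h7] at h6
  rcases key g with h | h
  · exact h.2
  · exfalso
    rw [hg] at h
    exact absurd h.1 (by decide)

variable {pn : {s : B.L // s ≠ a ∧ s ≠ b} → ℤ} {pD : {s : B.L // s ≠ a ∧ s ≠ b} → D}
  (hp : ∀ s, B.q a * (B.q s.1)⁻¹ = z ^ pn s * (pD s : Q))

include hp

theorem closure_top : Subgroup.closure ({wD H} ∪ Set.range pD) = ⊤ := by
  rw [eq_top_iff]
  intro d _
  apply ext_D H
  apply schreier H _ (eps_D H d)
  intro s
  by_cases ha : s = a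
  · rw [ha, mul_inv_cancel]
    exact Subgroup.one_mem _
  by_cases hb : s = b
  · rw [hb]
    refine ⟨1, wD H, Subgroup.subset_closure (Or.inl rfl), ?_⟩
    rw [zpow_one]
    show _ = z * (z⁻¹ * (B.q a * (B.q b)⁻¹))
    rw [mul_inv_cancel_left]
  · exact ⟨pn ⟨s, ha, hb⟩, pD ⟨s, ha, hb⟩, Subgroup.subset_closure (Or.inr ⟨_, rfl⟩), hp ⟨s, ha, hb⟩⟩

theorem grp_iff (X : Finset {s : B.L // s ≠ a ∧ s ≠ b}) (h : D) :
    (h : Q) ∈ grpA B a b z (X.map (Function.Embedding.subtype _)) ↔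
      h ∈ Hs (wD H) pD (X : Set {s : B.L // s ≠ a ∧ s ≠ b}) := by
  constructor
  · intro hh
    apply ext_D H
    have h1 : grpA B a b z (X.map (Function.Embedding.subtype _)) ≤
        ext H (Hs (wD H) pD (X : Set {s : B.L // s ≠ a ∧ s ≠ b})) := by
      unfold grpA
      rw [Subgroup.closure_le]
      rintro x ((rfl | hx) | ⟨s, hs, rfl⟩)
      · exact ⟨1, 1, Subgroup.one_mem _, by rw [zpow_one]; exact (mul_one _).symm⟩
      · have hx' : x = B.q a * (B.q b)⁻¹ := hx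
        rw [hx']
        refine ⟨1, wD H, H68L.W_le _ (Subgroup.mem_zpowers _), ?_⟩
        rw [zpow_one]
        show _ = z * (z⁻¹ * (B.q a * (B.q b)⁻¹))
        rw [mul_inv_cancel_left]
      · obtain ⟨s', hs', rfl⟩ := Finset.mem_map.1 hs
        exact ⟨pn s', pD s', H68L.p_mem (Finset.mem_coe.2 hs'), hp s'⟩
    exact h1 hh
  · intro hh
    have h1 : (Hs (wD H) pD (X : Set {s : B.L // s ≠ a ∧ s ≠ b})).map D.subtype ≤
        grpA B a b z (X.map (Function.Embedding.subtype _)) := by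
      rw [Subgroup.map_le_iff_le_comap]
      unfold Hs
      rw [Subgroup.closure_le]
      have hz : z ∈ grpA B a b z (X.map (Function.Embedding.subtype _)) :=
        Subgroup.subset_closure (Or.inl (Or.inl rfl))
      rintro x (hx | ⟨s, hs, rfl⟩)
      · have hx' : x = wD H := hx
        rw [hx']
        refine Subgroup.mul_mem _ (Subgroup.inv_mem _ hz) ?_
        exact Subgroup.subset_closure (Or.inl (Or.inr rfl))
      · show (pD s : Q) ∈ grpA B a b z (X.map (Function.Embedding.subtype _))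
        have h2 : (pD s : Q) = (z ^ pn s)⁻¹ * (B.q a * (B.q s.1)⁻¹) := by rw [hp, inv_mul_cancel_left]
        rw [h2]
        refine Subgroup.mul_mem _ (Subgroup.inv_mem _ (Subgroup.zpow_mem _ hz _)) ?_
        exact Subgroup.subset_closure (Or.inr ⟨s.1, Finset.mem_map.2 ⟨s, hs, rfl⟩, rfl⟩)
    exact h1 ⟨h, hh, rfl⟩

/-- The neighbours. -/
theorem nb (x : D) (s : {s : B.L // s ≠ a ∧ s ≠ b}) (L : Quotient (Equiv.Perm.SameCycle.setoid H.up.U))
    (h : El (fun δ : D => lnU H.up (δ : Q)) pD s (lnU H.up (x : Q)) L) :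
    ∃ y, NbQ B a b s.1 k (x : Q) y ∧ lnU H.up y = L := by
  obtain ⟨δ, h1, h2⟩ := h
  obtain ⟨m, rfl⟩ := (lnD_iff H x δ).1 h1.symm
  have hk := H.kpos
  have hk' : (k : ℤ) ≠ 0 := by omega
  obtain ⟨l, hl⟩ : ∃ l : ℕ, (l : ℤ) = m % (k : ℤ) := ⟨(m % (k : ℤ)).toNat, Int.toNat_of_nonneg (Int.emod_nonneg _ hk')⟩
  have hlk : l < k := by
    have := Int.emod_lt_of_pos m (show (0 : ℤ) < k by omega)
    omega
  have hwl : wD H ^ m = wD H ^ l := by
    have h3 : m = l + k * (m / (k : ℤ)) := by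
      rw [hl]
      exact (Int.emod_add_mul_ediv m k).symm
    rw [h3, zpow_add, zpow_mul, zpow_natCast, zpow_natCast, wD_k H, one_zpow, mul_one]
  have hxw : (x : Q) * (B.q a * (B.q b)⁻¹) ^ l = z ^ (l : ℤ) * ((x * wD H ^ l : D) : Q) := by
    have h3 := w_zpow H (l : ℤ)
    rw [zpow_natCast, zpow_natCast (wD H)] at h3
    rw [h3, ← mul_assoc, z_comm H, mul_assoc]
    rfl
  rw [hwl] at h2
  rcases h2 with h2 | h2
  · refine ⟨(x : Q) * (B.q a * (B.q b)⁻¹) ^ l * (B.q a * (B.q s.1)⁻¹) * (B.q a * (B.q b)⁻¹) ^ (-(l : ℤ)),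
      ⟨l, hlk, Or.inr rfl⟩, ?_⟩
    have h4 : (x : Q) * (B.q a * (B.q b)⁻¹) ^ l * (B.q a * (B.q s.1)⁻¹) =
        z ^ ((l : ℤ) + pn s) * ((x * wD H ^ l * pD s : D) : Q) := by
      rw [hxw, hp, mul_assoc (z ^ (l : ℤ)), ← mul_assoc ((x * wD H ^ l : D) : Q), z_comm H, zpow_add]
      rw [Subgroup.coe_mul _ (x * wD H ^ l) (pD s)]
      simp only [mul_assoc]
    rw [h4, ln_w H (eps_z H _ _), ln_z H, ← h2]
  · refine ⟨(x : Q) * (B.q a * (B.q b)⁻¹) ^ l * (B.q a * (B.q s.1)⁻¹)⁻¹ * (B.q a * (B.q b)⁻¹) ^ (1 - (l : ℤ)),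
      ⟨l, hlk, Or.inl rfl⟩, ?_⟩
    have h5 : (B.q a * (B.q s.1)⁻¹)⁻¹ = z ^ (-pn s) * (((pD s)⁻¹ : D) : Q) := by
      rw [hp, mul_inv_rev, ← zpow_neg]
      exact z_comm H (pD s)⁻¹ (-pn s)
    have h4 : (x : Q) * (B.q a * (B.q b)⁻¹) ^ l * (B.q a * (B.q s.1)⁻¹)⁻¹ =
        z ^ ((l : ℤ) + -pn s) * ((x * wD H ^ l * (pD s)⁻¹ : D) : Q) := by
      rw [hxw, h5, mul_assoc (z ^ (l : ℤ)), ← mul_assoc ((x * wD H ^ l : D) : Q), z_comm H, zpow_add]
      rw [Subgroup.coe_mul _ (x * wD H ^ l) (pD s)⁻¹]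
      simp only [mul_assoc]
    rw [h4, ln_w H (eps_z H _ _), ln_z H, ← h2]

omit hp

theorem card_lines (h3 : 3 ≤ (Subgroup.zpowers (B.q a * (B.q b)⁻¹)).relIndex eps.ker) :
    3 ≤ Nat.card (Quotient (Equiv.Perm.SameCycle.setoid H.up.U)) := by
  have := H.fin
  refine h3.trans ?_
  show ((Subgroup.zpowers (B.q a * (B.q b)⁻¹)).subgroupOf eps.ker).index ≤ _
  rw [Subgroup.index_eq_card]
  refine Nat.card_le_card_of_injective
    (fun q : eps.ker ⧸ (Subgroup.zpowers (B.q a * (B.q b)⁻¹)).subgroupOf eps.ker => lnU H.up (q.out : Q)) ?_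
  intro q q' hq
  obtain ⟨m, hm⟩ := (lnU_iff H (q.out).2 (q'.out).2).1 hq
  have h2 : ((q.out)⁻¹ * q'.out : eps.ker) ∈ (Subgroup.zpowers (B.q a * (B.q b)⁻¹)).subgroupOf eps.ker := by
    rw [Subgroup.mem_subgroupOf]
    refine ⟨m, ?_⟩
    show (B.q a * (B.q b)⁻¹) ^ m = (q.out : Q)⁻¹ * (q'.out : Q)
    rw [hm, inv_mul_cancel_left]
  rw [← QuotientGroup.eq] at h2
  have e1 : ((q.out : eps.ker) : eps.ker ⧸ (Subgroup.zpowers (B.q a * (B.q b)⁻¹)).subgroupOf eps.ker) = q :=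
    Quotient.out_eq' q
  have e2 : ((q'.out : eps.ker) : eps.ker ⧸ (Subgroup.zpowers (B.q a * (B.q b)⁻¹)).subgroupOf eps.ker) = q' :=
    Quotient.out_eq' q'
  rw [e1, e2] at h2
  exact h2

/-- The fibres of `D → lines`. -/
theorem card_fib (L : Quotient (Equiv.Perm.SameCycle.setoid H.up.U)) :
    Nat.card {δ : D // lnU H.up (δ : Q) = L} = Nat.card (Subgroup.zpowers (wD H)) := by
  obtain ⟨d, rfl⟩ := lnD_ex H L
  refine Nat.card_congr
    { toFun := fun δ => ⟨d⁻¹ * δ.1, by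
        obtain ⟨m, hm⟩ := (lnD_iff H _ _).1 δ.2.symm
        exact ⟨m, by rw [hm]; exact (inv_mul_cancel_left _ _).symm⟩⟩
      invFun := fun x => ⟨d * x.1, by
        obtain ⟨m, hm⟩ := x.2
        have hm' : wD H ^ m = x.1 := hm
        rw [← hm']
        exact ((lnD_iff H _ _).2 ⟨m, rfl⟩).symm⟩
      left_inv := fun δ => Subtype.ext (mul_inv_cancel_left _ _)
      right_inv := fun x => Subtype.ext (inv_mul_cancel_left _ _) }

end

/-- TREEA. -/
theorem treeA : TreeAS := by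
  classical
  intro Q _ B a b eps D z k τ num den H _ h3
  have := H.fin
  choose pn pD hp using exists_p H
  have hsur : Function.Surjective fun δ : D => lnU H.up (δ : Q) := fun L => lnD_ex H L
  obtain ⟨d, cl, N, cc, ll, mm, t, t', rk, hN, hNΛ, hEl, hEm, hd₁, hd₂, hcl, -, hT, hch⟩ :=
    treeLet (f := fun δ : D => lnU H.up (δ : Q)) (w := wD H) (p := pD) (lnD_iff H) hsur (closure_top H hp)
      (card_lines H h3)
  have hΛk : Nat.card (Quotient (Equiv.Perm.SameCycle.setoid H.up.U)) ≤ k :=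
    (Nat.card_le_card_of_surjective _ hsur).trans (Nat.le_of_dvd H.kpos H.card)
  choose x hxL using fun n => lnD_ex H (cc n)
  have h₁ : ∀ n, ∃ y, NbQ B a b (t n).1 k (x n : Q) y ∧ lnU H.up y = ll n := by
    intro n
    refine nb H hp (x n) (t n) _ ?_
    rw [hxL]
    exact hEl n
  have h₂ : ∀ n, ∃ y, NbQ B a b (t' n).1 k (x n : Q) y ∧ lnU H.up y = mm n := by
    intro n
    refine nb H hp (x n) (t' n) _ ?_
    rw [hxL]
    exact hEm n
  choose s₁ hs₁J hs₁L using h₁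
  choose s₂ hs₂J hs₂L using h₂
  refine ⟨fun y => d (lnU H.up y), fun y => cl (lnU H.up y), N, x, s₁, s₂, fun n => (t n).1, fun n => (t' n).1, rk, hN,
    hNΛ.trans hΛk, fun y => congrArg d (lnU_U H.up y), fun y => congrArg cl (lnU_U H.up y), fun n => ?_, fun n => ?_, ?_,
    fun n => ⟨(t n).2.1, (t n).2.2, hs₁J n⟩, fun n => ⟨(t' n).2.1, (t' n).2.2, hs₂J n⟩, ?_⟩
  · show d _ = !d _
    rw [hxL, hs₁L]; exact hd₁ n
  · show d _ = !d _
    rw [hxL, hs₂L]; exact hd₂ n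
  · exact
      { cl := fun i => by rw [hxL, hs₁L]; exact hT.cl i
        cm := fun i => by rw [hxL, hs₂L]; exact hT.cm i
        lm := fun i => by rw [hs₁L, hs₂L]; exact hT.lm i
        kl := fun i => by rw [hxL, hs₁L]; exact hT.kl i
        km := fun i => by rw [hxL, hs₂L]; exact hT.km i
        two := fun i => by
          obtain ⟨p, h1, h2⟩ := hT.two i
          refine ⟨fun y => p (lnU H.up y), ?_, ?_⟩
          · beta_reduce
            rw [hxL, hs₁L, hs₂L]; exact h1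
          · intro y hy j hj h
            rw [hxL, hs₁L, hs₂L] at h
            exact h2 _ hy j hj h
        cov := fun ρ hρ h y y' hy => by
          refine hT.cov ρ hρ (fun i => ?_) (lnU H.up y) (lnU H.up y') hy
          have := h i
          rwa [hxL, hs₁L, hs₂L] at this }
  · intro σ₀ hσ₀ γ hγ
    obtain ⟨y, hy⟩ := hγ
    obtain ⟨n, X, hX0, hXc, htX, htX', hodd⟩ := hch (σ₀.subtype fun s => s ≠ a ∧ s ≠ b) γ ⟨_, hy⟩
    refine ⟨n, X.map (Function.Embedding.subtype _), ?_, ?_, ?_, ?_, ?_, ?_⟩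
    · intro s hs
      exact Finset.mem_map.2 ⟨⟨s, hσ₀ s hs⟩, hX0 (Finset.mem_subtype.2 hs), rfl⟩
    · exact Finset.mem_map.2 ⟨_, htX, rfl⟩
    · exact Finset.mem_map.2 ⟨_, htX', rfl⟩
    · intro s hs
      obtain ⟨s', -, rfl⟩ := Finset.mem_map.1 hs
      exact s'.2
    · rw [Finset.card_map]
      refine hXc.trans (Nat.add_le_add_right ?_ _)
      rw [Finset.card_subtype]
      exact Finset.card_filter_le _ _
    · intro p hp' hkp _
      have hDk : Fintype.card D ≤ k := by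
        rw [← Nat.card_eq_fintype_card]
        exact Nat.le_of_dvd H.kpos H.card
      have h := sum_ne (fun δ : D => lnU H.up (δ : Q)) (Nat.card (Subgroup.zpowers (wD H))) Nat.card_pos (card_fib H)
        cl d γ (fun L => Rl (fun δ : D => lnU H.up (δ : Q)) (wD H) pD (X : Set {s : B.L // s ≠ a ∧ s ≠ b}) (cc n) L)
        hodd p hp' (by omega)
      have h1 : ∀ δ : D, (((x n)⁻¹ * δ : D) : Q) ∈ grpA B a b z (X.map (Function.Embedding.subtype _)) ↔
          Rl (fun δ : D => lnU H.up (δ : Q)) (wD H) pD (X : Set {s : B.L // s ≠ a ∧ s ≠ b}) (cc n)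
            (lnU H.up (δ : Q)) := by
        intro δ
        rw [grp_iff H hp, ← hxL n]
        exact (Rl_iff (f := fun δ : D => lnU H.up (δ : Q)) (lnD_iff H) (δ := x n) (δ' := δ)).symm
      refine fun h0 => h ((Finset.sum_congr rfl fun δ _ => ?_).trans h0)
      by_cases h2 : (((x n)⁻¹ * δ : D) : Q) ∈ grpA B a b z (X.map (Function.Embedding.subtype _))
      · rw [if_pos h2, if_pos ((h1 δ).1 h2)]
        rfl
      · rw [if_neg h2, if_neg fun h4 => h2 ((h1 δ).2 h4)]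

end Pool.Agent.Lib.MP_688fd0_co.SQ5.NA.H68
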